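import Pool.Agent.Lib.MP_776403_ag.SD.SpecE
import Pool.Agent.Lib.MP_776403_ag.SD.Bas

/-!
# THEOREM SD, part E: Cramer's rule on a line
-/

set_option autoImplicit false

open MvPolynomial

noncomputable section

namespace Pool.Agent.Lib.MP_776403_ag.SD

namespace CrLAux

variable {N c : ℕ} {I : Ideal (Sx N)} {y : Vx N}

/-- Sums over all coordinates. -/
theorem sum_split {R : Type} [AddCommMonoid R] (L : Loc I y c) (f : Fin (N + 1) → R) :
    ∑ l, f l = ∑ b, f (L.B b) + ∑ j : L.Bc, f j.1 := by
  classical
  have h1 : ∑ b, f (L.B b) = ∑ l ∈ Finset.univ.image L.B, f l := by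
    rw [Finset.sum_image fun a _ b _ h => L.injB h]
  have h2 : ∑ j : L.Bc, f j.1 = ∑ l ∈ (Finset.univ.image L.B)ᶜ, f l := by
    rw [← Finset.sum_subtype_of_mem (p := fun j => j ∉ Set.range L.B)]
    · refine Finset.sum_congr ?_ fun _ _ => rfl
      ext j
      simp only [Finset.mem_univ, Finset.mem_subtype, Finset.mem_compl, Finset.mem_image, true_and,
        true_iff]
      exact fun h => j.2 (Set.mem_range.mpr h)
    · intro j hj
      rw [Finset.mem_compl, Finset.mem_image] at hj
      rintro ⟨b, hb⟩
      exact hj ⟨b, Finset.mem_univ _, hb⟩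
  rw [h1, h2, Finset.sum_add_sum_compl]

/-- `M adj(M) = Δ` against the derivatives. -/
theorem M_coef (L : Loc I y c) (i : Fin c) (j : Fin (N + 1)) :
    ∑ b, L.coef b j * pderiv (L.B b) (L.F i) = L.dt * pderiv j (L.F i) := by
  have h : ∀ k, ∑ b, L.M i b * L.M.adjugate b k = if i = k then L.dt else 0 := by
    intro k
    have h1 := congrFun (congrFun (Matrix.mul_adjugate L.M) i) k
    rw [Matrix.mul_apply] at h1
    rw [h1, Matrix.smul_apply, Matrix.one_apply, smul_eq_mul]
    split_ifs
    · rw [mul_one]; rfl
    · rw [mul_zero]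
  calc ∑ b, L.coef b j * pderiv (L.B b) (L.F i)
      = ∑ b, ∑ k, (L.M i b * L.M.adjugate b k) * pderiv j (L.F k) := by
        refine Finset.sum_congr rfl fun b _ => ?_
        rw [Loc.coef, Finset.sum_mul]
        refine Finset.sum_congr rfl fun k _ => ?_
        change _ = (pderiv (L.B b) (L.F i) * _) * _
        ring
    _ = ∑ k, (∑ b, L.M i b * L.M.adjugate b k) * pderiv j (L.F k) := by
        rw [Finset.sum_comm]
        exact Finset.sum_congr rfl fun k _ => by rw [Finset.sum_mul]
    _ = L.dt * pderiv j (L.F i) := by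
        rw [Finset.sum_eq_single i]
        · rw [h, if_pos rfl]
        · intro k _ hk
          rw [h, if_neg fun e => hk e.symm, zero_mul]
        · intro hi
          exact absurd (Finset.mem_univ i) hi

/-- `adj(M) M = Δ`. -/
theorem adj_M (L : Loc I y c) (b b' : Fin c) :
    ∑ i, L.M.adjugate b i * pderiv (L.B b') (L.F i) = if b = b' then L.dt else 0 := by
  have h1 := congrFun (congrFun (Matrix.adjugate_mul L.M) b) b'
  rw [Matrix.mul_apply, Matrix.smul_apply, Matrix.one_apply, smul_eq_mul] at h1
  change ∑ i, L.M.adjugate b i * L.M i b' = _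
  rw [h1]
  split_ifs
  · rw [mul_one]; rfl
  · rw [mul_zero]

end CrLAux

open CrLAux in
/-- Cramer's rule on a line. -/
theorem eCrL : S_LinB → S_CrL := by
  intro hB N c I x v y t0 L hy hl
  have hz : ∀ F ∈ I, lin x v F = 0 := fun F hF => (hB N x v F).2.2 I hl hF
  have hd : lin x v L.dt ≠ 0 := by
    intro h
    have h1 := (hB N x v L.dt).1 t0
    rw [h, Polynomial.eval_zero, ← hy] at h1
    exact L.detx h1.symm
  have hh : lin x v L.h ≠ 0 := by
    intro h
    have h1 := (hB N x v L.h).1 t0
    rw [h, Polynomial.eval_zero, ← hy] at h1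
    exact L.hx h1.symm
  -- the derivatives of the elements of `I`
  have hG : ∀ G ∈ I, ∃ a : Fin c → Sx N, ∀ j, lin x v L.h * lin x v (pderiv j G) =
      ∑ i, lin x v (a i) * lin x v (pderiv j (L.F i)) := by
    intro G hG
    obtain ⟨a, ha⟩ := (Ideal.mem_span_range_iff_exists_fun).1 (L.mul G hG)
    refine ⟨a, fun j => ?_⟩
    have h1 := congrArg (fun P => lin x v (pderiv j P)) ha
    simp only [map_sum, Derivation.leibniz, smul_eq_mul, map_add, map_mul, hz G hG,
      hz _ (L.memF _), zero_mul, add_zero] at h1
    exact h1.symm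
  refine ⟨hd, hh, fun G hGI j => ?_, fun w hw => ⟨fun G hGI => ?_, fun b => ?_⟩⟩
  · obtain ⟨a, ha⟩ := hG G hGI
    refine mul_left_cancel₀ hh ?_
    have h1 : ∀ i, ∑ b, lin x v (L.coef b j) * lin x v (pderiv (L.B b) (L.F i)) =
        lin x v L.dt * lin x v (pderiv j (L.F i)) := by
      intro i
      have := congrArg (lin x v) (M_coef L i j)
      rwa [map_sum, map_mul, Finset.sum_congr rfl fun b _ => map_mul _ _ _] at this
    calc lin x v L.h * (lin x v L.dt * lin x v (pderiv j G))
        = lin x v L.dt * (lin x v L.h * lin x v (pderiv j G)) := by ring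
      _ = ∑ i, lin x v (a i) * (lin x v L.dt * lin x v (pderiv j (L.F i))) := by
          rw [ha, Finset.mul_sum]
          exact Finset.sum_congr rfl fun i _ => by ring
      _ = ∑ i, ∑ b, lin x v (a i) * (lin x v (L.coef b j) * lin x v (pderiv (L.B b) (L.F i))) := by
          refine Finset.sum_congr rfl fun i _ => ?_
          rw [← h1, Finset.mul_sum]
      _ = ∑ b, lin x v (L.coef b j) * ∑ i, lin x v (a i) * lin x v (pderiv (L.B b) (L.F i)) := by
          rw [Finset.sum_comm]
          refine Finset.sum_congr rfl fun b _ => ?_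
          rw [Finset.mul_sum]
          exact Finset.sum_congr rfl fun i _ => by ring
      _ = lin x v L.h * ∑ b, lin x v (L.coef b j) * lin x v (pderiv (L.B b) G) := by
          rw [Finset.mul_sum]
          refine Finset.sum_congr rfl fun b _ => ?_
          rw [← ha]
          ring
  · obtain ⟨a, ha⟩ := hG G hGI
    have h1 : lin x v L.h * ∑ l, lin x v (pderiv l G) * w l = 0 := by
      calc lin x v L.h * ∑ l, lin x v (pderiv l G) * w l
          = ∑ l, ∑ i, lin x v (a i) * (lin x v (pderiv l (L.F i)) * w l) := by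
            rw [Finset.mul_sum]
            refine Finset.sum_congr rfl fun l _ => ?_
            rw [← mul_assoc, ha, Finset.sum_mul]
            exact Finset.sum_congr rfl fun i _ => by ring
        _ = ∑ i, lin x v (a i) * ∑ l, lin x v (pderiv l (L.F i)) * w l := by
            rw [Finset.sum_comm]
            exact Finset.sum_congr rfl fun i _ => by rw [Finset.mul_sum]
        _ = 0 := Finset.sum_eq_zero fun i _ => by rw [hw i, mul_zero]
    exact (mul_eq_zero.mp h1).resolve_left hh
  · have h1 : ∀ i, ∑ b', lin x v (pderiv (L.B b') (L.F i)) * w (L.B b') +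
        ∑ j : L.Bc, lin x v (pderiv j.1 (L.F i)) * w j.1 = 0 := by
      intro i
      rw [← sum_split L fun l => lin x v (pderiv l (L.F i)) * w l]
      exact hw i
    have h2 : ∑ i, lin x v (L.M.adjugate b i) *
        (∑ b', lin x v (pderiv (L.B b') (L.F i)) * w (L.B b')) = lin x v L.dt * w (L.B b) := by
      calc ∑ i, lin x v (L.M.adjugate b i) *
            (∑ b', lin x v (pderiv (L.B b') (L.F i)) * w (L.B b'))
          = ∑ b', lin x v (∑ i, L.M.adjugate b i * pderiv (L.B b') (L.F i)) * w (L.B b') := by
            simp only [Finset.mul_sum]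
            rw [Finset.sum_comm]
            refine Finset.sum_congr rfl fun b' _ => ?_
            rw [map_sum, Finset.sum_mul]
            exact Finset.sum_congr rfl fun i _ => by rw [map_mul]; ring
        _ = lin x v L.dt * w (L.B b) := by
            rw [Finset.sum_eq_single b]
            · rw [adj_M, if_pos rfl]
            · intro b' _ hb'
              rw [adj_M, if_neg fun e => hb' e.symm, map_zero, zero_mul]
            · intro hb
              exact absurd (Finset.mem_univ b) hb
    have h3 : ∑ i, lin x v (L.M.adjugate b i) *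
        (∑ j : L.Bc, lin x v (pderiv j.1 (L.F i)) * w j.1) =
        ∑ j : L.Bc, lin x v (L.coef b j.1) * w j.1 := by
      simp only [Finset.mul_sum]
      rw [Finset.sum_comm]
      refine Finset.sum_congr rfl fun j _ => ?_
      rw [Loc.coef, map_sum, Finset.sum_mul]
      exact Finset.sum_congr rfl fun i _ => by rw [map_mul]; ring
    have h4 : ∑ i, lin x v (L.M.adjugate b i) *
        (∑ b', lin x v (pderiv (L.B b') (L.F i)) * w (L.B b') +
        ∑ j : L.Bc, lin x v (pderiv j.1 (L.F i)) * w j.1) = 0 :=
      Finset.sum_eq_zero fun i _ => by rw [h1 i, mul_zero]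
    simp only [mul_add, Finset.sum_add_distrib] at h4
    rw [h2, h3] at h4
    exact eq_neg_of_add_eq_zero_left h4

end Pool.Agent.Lib.MP_776403_ag.SD
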