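import Pool.Agent.Lib.MP_776403_ag.SD.SpecE

/-!
# THEOREM SD, part E, module Hom: homogeneity and degrees of the minors (helper27)
-/

set_option autoImplicit false

open MvPolynomial

noncomputable section

namespace Pool.Agent.Lib.MP_776403_ag.SD

namespace HomAux

/-- The determinant of a matrix with homogeneous rows. -/
theorem det_hom {N c : ℕ} (A : Matrix (Fin c) (Fin c) (Sx N)) (r : Fin c → ℕ)
    (h : ∀ i b, (A i b).IsHomogeneous (r i)) : A.det.IsHomogeneous (∑ i, r i) := by
  classical
  rw [Matrix.det_apply']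
  refine IsHomogeneous.sum _ _ _ fun σ _ => ?_
  have h1 : (∏ i, A (σ i) i).IsHomogeneous (∑ i, r (σ i)) :=
    IsHomogeneous.prod _ _ _ fun i _ => h (σ i) i
  rw [Equiv.sum_comp σ r] at h1
  have h2 : (((Equiv.Perm.sign σ : ℤ) : Sx N)).IsHomogeneous 0 := by
    have h3 : (((Equiv.Perm.sign σ : ℤ) : Sx N)) = C ((Equiv.Perm.sign σ : ℤ) : ℂ) := by
      rw [map_intCast]
    rw [h3]
    exact isHomogeneous_C _ _
  have h4 := h2.mul h1
  rwa [zero_add] at h4

end HomAux

theorem eHom : S_LinB → S_Hom := by
  classical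
  intro hLin N c I x v0 L
  have hM : ∀ i b, (L.M i b).IsHomogeneous (L.f i - 1) := fun i b => (L.homF i).pderiv
  have hdt : L.dt.IsHomogeneous L.dg := HomAux.det_hom _ _ hM
  have hle : ∀ i, L.f i - 1 ≤ L.dg := fun i =>
    Finset.single_le_sum (f := fun i => L.f i - 1) (fun _ _ => Nat.zero_le _) (Finset.mem_univ i)
  have hadj : ∀ b i, (L.M.adjugate b i).IsHomogeneous (L.dg - (L.f i - 1)) := by
    intro b i
    rw [Matrix.adjugate_apply]
    have h1 := HomAux.det_hom (L.M.updateRow i (Pi.single b 1))
      (Function.update (fun k => L.f k - 1) i 0) (by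
        intro k l
        by_cases hk : k = i
        · subst hk
          rw [Matrix.updateRow_self, Function.update_self]
          by_cases hl : l = b
          · subst hl
            rw [Pi.single_eq_same]
            exact isHomogeneous_one _ _
          · rw [Pi.single_eq_of_ne hl]
            exact isHomogeneous_zero _ _ _
        · rw [Matrix.updateRow_ne hk, Function.update_of_ne hk]
          exact hM k l)
    have h2 : ∑ k, Function.update (fun k => L.f k - 1) i 0 k = L.dg - (L.f i - 1) := by
      have h3 : L.dg = (L.f i - 1) + ∑ k ∈ Finset.univ.erase i, (L.f k - 1) :=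
        (Finset.add_sum_erase _ (fun k => L.f k - 1) (Finset.mem_univ i)).symm
      rw [h3, ← Finset.add_sum_erase _ _ (Finset.mem_univ i), Function.update_self, zero_add,
        Nat.add_sub_cancel_left]
      refine Finset.sum_congr rfl fun k hk => ?_
      rw [Function.update_of_ne (Finset.ne_of_mem_erase hk)]
    rwa [h2] at h1
  have hcoef : ∀ b j, (L.coef b j).IsHomogeneous L.dg := by
    intro b j
    refine IsHomogeneous.sum _ _ _ fun i _ => ?_
    have h1 := (hadj b i).mul ((L.homF i).pderiv (i := j))
    rwa [Nat.sub_add_cancel (hle i)] at h1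
  have hcr : ∀ j l, (L.cr j l).IsHomogeneous L.dg := by
    intro j l
    refine IsHomogeneous.sub ?_ (IsHomogeneous.sum _ _ _ fun b _ => ?_)
    · split_ifs
      · exact hdt
      · exact isHomogeneous_zero _ _ _
    · split_ifs
      · exact hcoef b j
      · exact isHomogeneous_zero _ _ _
  refine ⟨hdt, hcoef, hcr, fun b i => ((hLin N x v0 _).2.1 _ (hadj b i)).1, hle, ?_, ?_⟩
  · have h1 := (hLin N x v0 L.dt).1 0
    rw [zero_smul, add_zero, ← Polynomial.coeff_zero_eq_eval_zero] at h1
    rw [h1]
    exact L.detx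
  · intro hg
    obtain ⟨h1, h2, -⟩ := (hLin N x v0 L.dt).2.1 L.dg hdt
    refine le_antisymm h1 (Polynomial.le_natDegree_of_ne_zero ?_)
    rw [h2]
    exact hg

end Pool.Agent.Lib.MP_776403_ag.SD
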