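import Pool.Agent.Lib.MP_776403_ag.SD.SpecE
import Pool.Agent.Lib.MP_776403_ag.SD.Bas

set_option autoImplicit false

open MvPolynomial

noncomputable section

namespace Pool.Agent.Lib.MP_776403_ag.SD

theorem eLinB : S_LinB := by
  intro N x v F
  refine ⟨fun t => lin_eval x v F t, fun m hF => ⟨?_, lin_coeff_top hF x v, fun σ τ =>
    (lin_hom hF x v σ τ).symm⟩, fun I h hF => ?_⟩
  · have h := lin_mem hF x v
    rw [Polynomial.mem_degreeLT] at h
    by_cases h0 : lin x v F = 0
    · rw [h0, Polynomial.natDegree_zero]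
      exact Nat.zero_le m
    · exact Nat.lt_succ_iff.1 ((Polynomial.natDegree_lt_iff_degree_lt h0).2 h)
  · refine poly_ext fun t => ?_
    rw [lin_eval, Polynomial.eval_zero]
    have h1 := h 1 t
    rw [one_smul] at h1
    exact h1 F hF

end Pool.Agent.Lib.MP_776403_ag.SD
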