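import Pool.Agent.Lib.MP_776403_ag.SD.SpecE
import Pool.Agent.Lib.MP_776403_ag.SD.Bas

/-!
# THEOREM SD, part E, module LineI: the ideal of a line (helper41)
-/

set_option autoImplicit false

open MvPolynomial

noncomputable section

namespace Pool.Agent.Lib.MP_776403_ag.SD

namespace LineIAux

variable {N : ℕ}

/-- Restriction to the plane `span (x, v)`. -/
def ph (x v : Vx N) : Sx N →ₐ[ℂ] MvPolynomial (Fin 2) ℂ :=
  aeval fun i => C (x i) * X 0 + C (v i) * X 1

lemma eval_ph (x v : Vx N) (F : Sx N) (a : Fin 2 → ℂ) :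
    eval a (ph x v F) = eval (a 0 • x + a 1 • v) F := by
  have h : (eval a).comp (ph x v : Sx N →+* MvPolynomial (Fin 2) ℂ) =
      eval (a 0 • x + a 1 • v) := by
    refine MvPolynomial.ringHom_ext (fun c => ?_) fun i => ?_
    · rw [RingHom.comp_apply, eval_C]
      show eval a (ph x v (C c)) = c
      rw [ph, aeval_C, algebraMap_eq, eval_C]
    · rw [RingHom.comp_apply, eval_X]
      show eval a (ph x v (X i)) = _
      rw [ph, aeval_X, map_add, map_mul, map_mul, eval_C, eval_C, eval_X, eval_X]
      show x i * a 0 + v i * a 1 = a 0 * x i + a 1 * v i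
      ring
  exact RingHom.congr_fun h F

lemma mem_iff (x v : Vx N) (F : Sx N) : F ∈ lineI x v ↔ ph x v F = 0 := by
  constructor
  · intro h
    refine MvPolynomial.funext fun a => ?_
    rw [eval_ph, map_zero]
    exact h (a 0) (a 1)
  · intro h s t
    have h1 := eval_ph x v F ![s, t]
    rw [h, map_zero] at h1
    exact h1.symm

lemma prime (x v : Vx N) : (lineI x v).IsPrime := by
  have h : lineI x v = RingHom.ker (ph x v : Sx N →+* MvPolynomial (Fin 2) ℂ) := by
    ext F
    rw [mem_iff, RingHom.mem_ker]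
    rfl
  rw [h]
  exact RingHom.ker_isPrime _

lemma isHom (x v : Vx N) : IsHom (lineI x v) := by
  intro F hF m s t
  by_cases hm : m < F.totalDegree + 1
  · let p : Polynomial ℂ := ∑ k ∈ Finset.range (F.totalDegree + 1),
      Polynomial.C (eval (s • x + t • v) (homogeneousComponent k F)) * Polynomial.X ^ k
    have hp : p = 0 := by
      refine poly_ext fun a => ?_
      have h1 : p.eval a = eval (a • (s • x + t • v)) F := by
        show (∑ k ∈ Finset.range (F.totalDegree + 1),
          Polynomial.C (eval (s • x + t • v) (homogeneousComponent k F)) *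
            Polynomial.X ^ k).eval a = _
        rw [Polynomial.eval_finsetSum]
        conv_rhs => rw [← sum_homogeneousComponent F]
        rw [map_sum]
        refine Finset.sum_congr rfl fun k _ => ?_
        rw [Polynomial.eval_mul, Polynomial.eval_C, Polynomial.eval_pow, Polynomial.eval_X,
          eval_smul_form (homogeneousComponent_isHomogeneous k F), mul_comm]
      rw [h1, Polynomial.eval_zero, smul_add, smul_smul, smul_smul]
      exact hF (a * s) (a * t)
    have h2 : p.coeff m = eval (s • x + t • v) (homogeneousComponent m F) := by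
      show (∑ k ∈ Finset.range (F.totalDegree + 1),
          Polynomial.C (eval (s • x + t • v) (homogeneousComponent k F)) *
            Polynomial.X ^ k).coeff m = _
      rw [Polynomial.finsetSum_coeff, Finset.sum_eq_single m]
      · rw [Polynomial.coeff_C_mul_X_pow, if_pos rfl]
      · intro b _ hb
        rw [Polynomial.coeff_C_mul_X_pow, if_neg (Ne.symm hb)]
      · intro h
        exact absurd (Finset.mem_range.2 hm) h
    rw [← h2, hp, Polynomial.coeff_zero]
  · rw [homogeneousComponent_eq_zero m F (by omega), map_zero]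

lemma mem_iff_lin (x v : Vx N) {m : ℕ} {F : Sx N} (hF : F.IsHomogeneous m) :
    F ∈ lineI x v ↔ lin x v F = 0 := by
  constructor
  · intro h
    refine poly_ext fun t => ?_
    rw [lin_eval, Polynomial.eval_zero]
    have h1 := h 1 t
    rwa [one_smul] at h1
  · intro h s t
    rw [← lin_hom hF, h]
    refine Finset.sum_eq_zero fun j _ => ?_
    rw [Polynomial.coeff_zero, zero_mul, zero_mul]

/-- The linear form with the coefficients `a`. -/
def lf (a : Vx N) : Sx N := ∑ i, C (a i) * X i

lemma lf_hom (a : Vx N) : (lf a).IsHomogeneous 1 :=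
  IsHomogeneous.sum _ _ _ fun i _ => by
    have h := (isHomogeneous_C (Fin (N + 1)) (a i)).mul (isHomogeneous_X ℂ i)
    rwa [zero_add] at h

lemma lin_lf (x v a : Vx N) : lin x v (lf a) =
    Polynomial.C (∑ i, a i * x i) + Polynomial.C (∑ i, a i * v i) * Polynomial.X := by
  rw [lf, map_sum, map_sum, map_sum, Finset.sum_mul, ← Finset.sum_add_distrib]
  refine Finset.sum_congr rfl fun i _ => ?_
  rw [map_mul]
  unfold lin
  rw [aeval_C, aeval_X, Polynomial.algebraMap_eq, map_mul, map_mul]
  ring

lemma exists_forms {x v : Vx N} (h : LinearIndependent ℂ ![x, v]) :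
    ∃ a b : Vx N, ∑ i, a i * x i = 1 ∧ ∑ i, a i * v i = 0 ∧ ∑ i, b i * x i = 0 ∧
      ∑ i, b i * v i = 1 := by
  have h1 : LinearMap.ker (Fintype.linearCombination ℂ ![x, v]) = ⊥ := by
    rw [LinearMap.ker_eq_bot]
    exact linearIndependent_iff_injective_fintypeLinearCombination.1 h
  obtain ⟨g, hg⟩ := LinearMap.exists_leftInverse_of_injective _ h1
  have hx : g x = Pi.single 0 1 := by
    have h2 := LinearMap.congr_fun hg (Pi.single 0 1)
    rw [LinearMap.comp_apply, Fintype.linearCombination_apply_single, one_smul] at h2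
    exact h2
  have hv : g v = Pi.single 1 1 := by
    have h2 := LinearMap.congr_fun hg (Pi.single 1 1)
    rw [LinearMap.comp_apply, Fintype.linearCombination_apply_single, one_smul] at h2
    exact h2
  have key : ∀ (y : Vx N) (k : Fin 2), ∑ i, g (Pi.single i 1) k * y i = g y k := by
    intro y k
    conv_rhs => rw [pi_eq_sum_univ' y]
    rw [map_sum, Finset.sum_apply]
    refine Finset.sum_congr rfl fun i _ => ?_
    rw [map_smul, Pi.smul_apply, smul_eq_mul, mul_comm]
  refine ⟨fun i => g (Pi.single i 1) 0, fun i => g (Pi.single i 1) 1, ?_, ?_, ?_, ?_⟩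
  · rw [key, hx]; rfl
  · rw [key, hv]; rfl
  · rw [key, hx]; rfl
  · rw [key, hv]; rfl

lemma surj {x v : Vx N} (h : LinearIndependent ℂ ![x, v]) (m : ℕ) {g : Polynomial ℂ}
    (hg : g ∈ Polynomial.degreeLT ℂ (m + 1)) :
    ∃ F : Sx N, F.IsHomogeneous m ∧ lin x v F = g := by
  obtain ⟨a, b, ax, av, bx, bv⟩ := exists_forms h
  have la : lin x v (lf a) = 1 := by
    rw [lin_lf, ax, av, map_one, map_zero, zero_mul, add_zero]
  have lb : lin x v (lf b) = Polynomial.X := by
    rw [lin_lf, bx, bv, map_one, map_zero, zero_add, one_mul]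
  refine ⟨∑ j ∈ Finset.range (m + 1), C (g.coeff j) * (lf a ^ (m - j) * lf b ^ j), ?_, ?_⟩
  · refine IsHomogeneous.sum _ _ _ fun j hj => ?_
    have h1 := (isHomogeneous_C (Fin (N + 1)) (g.coeff j)).mul
      (((lf_hom a).pow (m - j)).mul ((lf_hom b).pow j))
    have h2 : 0 + (1 * (m - j) + 1 * j) = m := by
      have := Finset.mem_range.1 hj
      omega
    rwa [h2] at h1
  · rw [map_sum]
    have h1 : g.natDegree < m + 1 := by
      by_cases h0 : g = 0
      · rw [h0, Polynomial.natDegree_zero]; omega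
      · rw [Polynomial.mem_degreeLT, Polynomial.degree_eq_natDegree h0] at hg
        exact_mod_cast hg
    conv_rhs => rw [g.as_sum_range' (m + 1) h1]
    refine Finset.sum_congr rfl fun j _ => ?_
    rw [map_mul, map_mul, map_pow, map_pow, la, lb, one_pow, one_mul,
      ← Polynomial.C_mul_X_pow_eq_monomial]
    congr 1
    unfold lin
    rw [aeval_C]
    rfl

lemma finrank_gr {x v : Vx N} (h : LinearIndependent ℂ ![x, v]) (m : ℕ) :
    Module.finrank ℂ (gr (lineI x v) m) = m + 1 := by
  let f1 : homogeneousSubmodule (Fin (N + 1)) ℂ m →ₗ[ℂ] Sx N ⧸ lineI x v :=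
    (Ideal.Quotient.mkₐ ℂ (lineI x v)).toLinearMap ∘ₗ (Submodule.subtype _)
  let f2 : homogeneousSubmodule (Fin (N + 1)) ℂ m →ₗ[ℂ] Polynomial ℂ :=
    (lin x v).toLinearMap ∘ₗ (Submodule.subtype _)
  have e1 : gr (lineI x v) m = LinearMap.range f1 := by
    rw [LinearMap.range_comp, Submodule.range_subtype]
    rfl
  have e2 : LinearMap.range f2 = Polynomial.degreeLT ℂ (m + 1) := by
    refine le_antisymm ?_ fun g hg => ?_
    · rintro _ ⟨⟨F, hF⟩, rfl⟩
      exact lin_mem hF x v
    · obtain ⟨F, hF, hFg⟩ := surj h m hg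
      exact ⟨⟨F, hF⟩, hFg⟩
  have e3 : LinearMap.ker f1 = LinearMap.ker f2 := by
    ext ⟨F, hF⟩
    rw [LinearMap.mem_ker, LinearMap.mem_ker]
    have h1 : f1 ⟨F, hF⟩ = 0 ↔ F ∈ lineI x v := Ideal.Quotient.eq_zero_iff_mem
    rw [h1]
    exact mem_iff_lin x v hF
  have e4 : Module.finrank ℂ (LinearMap.range f1) = Module.finrank ℂ (LinearMap.range f2) := by
    rw [← f1.quotKerEquivRange.finrank_eq, ← f2.quotKerEquivRange.finrank_eq, e3]
  rw [e1, e4, e2, (Polynomial.degreeLTEquiv ℂ (m + 1)).finrank_eq, Module.finrank_fin_fun]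

end LineIAux

open LineIAux in
theorem eLineI : S_LinB → S_LineI := fun _ _ x v h =>
  ⟨prime x v, isHom x v, fun _ _ hF => mem_iff_lin x v hF, fun m _ hg => surj h m hg,
    fun m => finrank_gr h m⟩

end Pool.Agent.Lib.MP_776403_ag.SD
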