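import Pool.Agent.Lib.MP_776403_ag.SD.SpecE

/-! THEOREM SD, part E: a functional applied to the coefficients of a polynomial. -/

set_option autoImplicit false

open MvPolynomial

noncomputable section

namespace Pool.Agent.Lib.MP_776403_ag.SD

namespace MapLAux

private theorem coeff_mapL {A : Type} [CommRing A] [Algebra ℂ A] (lam : A →ₗ[ℂ] ℂ)
    (f : Polynomial A) (n : ℕ) : (mapL lam f).coeff n = lam (f.coeff n) := by
  unfold mapL
  rw [Polynomial.finsetSum_coeff]
  simp only [Polynomial.coeff_monomial]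
  rw [Finset.sum_ite_eq' f.support n (fun m => lam (f.coeff m))]
  split_ifs with h
  · rfl
  · rw [Polynomial.notMem_support_iff.mp h, map_zero]

private theorem lam_mul {σ : Type} (z : σ → ℂ) (J : Ideal (MvPolynomial σ ℂ))
    (lam : MvPolynomial σ ℂ →ₗ[ℂ] ℂ) (hl : ∀ f ∈ ptI z * J, lam f = 0)
    (a b : MvPolynomial σ ℂ) (hb : b ∈ J) : lam (a * b) = eval z a * lam b := by
  have h1 : a - C (eval z a) ∈ ptI z := by
    unfold ptI
    rw [RingHom.mem_ker, map_sub, eval_C, sub_self]
  have h2 := hl _ (Ideal.mul_mem_mul h1 hb)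
  rw [sub_mul, map_sub, sub_eq_zero] at h2
  rw [h2, C_mul', map_smul, smul_eq_mul]

end MapLAux

theorem eMapL : S_mapL := by
  intro σ _ z J lam hl
  refine ⟨fun f n => MapLAux.coeff_mapL lam f n, fun f g => ?_, fun f g hf => ?_⟩
  · ext n
    rw [Polynomial.coeff_add, MapLAux.coeff_mapL, MapLAux.coeff_mapL, MapLAux.coeff_mapL,
      Polynomial.coeff_add, map_add]
  · ext n
    rw [MapLAux.coeff_mapL, Polynomial.coeff_mul, Polynomial.coeff_mul, map_sum]
    refine Finset.sum_congr rfl fun p _ => ?_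
    rw [Polynomial.coeff_map, MapLAux.coeff_mapL,
      MapLAux.lam_mul z J lam hl (g.coeff p.1) (f.coeff p.2) (hf p.2)]

end Pool.Agent.Lib.MP_776403_ag.SD
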