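import Pool.Agent.Lib.MP_776403_ag.SD.SpecE

/-!
# THEOREM SD, part E: local equations of a smooth variety at a point (helper61)
-/

set_option autoImplicit false

open MvPolynomial

noncomputable section

namespace Pool.Agent.Lib.MP_776403_ag.SD

namespace LocAux

/-- a matrix with independent rows has a nonzero maximal minor -/
private theorem exists_minor {c n : ℕ} (A : Matrix (Fin c) (Fin n) ℂ)
    (h : LinearIndependent ℂ A.row) :
    ∃ B : Fin c → Fin n, Function.Injective B ∧ (Matrix.of fun i b => A i (B b)).det ≠ 0 := by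
  classical
  have h1 : A.rank = c := by rw [h.rank_matrix, Fintype.card_fin]
  obtain ⟨κ, a, ha, hs, hli⟩ := exists_linearIndependent' ℂ A.col
  have : Finite κ := Finite.of_injective a ha
  have := Fintype.ofFinite κ
  have h2 : Fintype.card κ = c := by
    have h3 := linearIndependent_iff_card_eq_finrank_span.1 hli
    rw [h3, Set.finrank, hs, ← Matrix.rank_eq_finrank_span_cols, h1]
  let e : Fin c ≃ κ := (Fintype.equivFinOfCardEq h2).symm
  refine ⟨a ∘ e, ha.comp e.injective, ?_⟩
  have h3 : LinearIndependent ℂ (Matrix.of fun i b => A i ((a ∘ e) b)).col :=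
    hli.comp e e.injective
  have h4 := Matrix.linearIndependent_cols_iff_isUnit.1 h3
  exact ((Matrix.isUnit_iff_isUnit_det _).1 h4).ne_zero

end LocAux

open LocAux in
/-- Local equations of `X` at a point. -/
theorem eLoc : S_Loc := by
  intro N c I hS x hx hx0
  obtain ⟨F, f, h, e, hF, -, hhx, hind, hmul⟩ := hS x hx hx0
  obtain ⟨B, hB, hdet⟩ := exists_minor (Matrix.of fun i => grad (F i) x) hind
  refine ⟨⟨F, f, B, h, hx, hx0, fun i => (hF i).1, fun i => (hF i).2, hB, hhx, hmul, ?_⟩⟩
  have h1 : eval x (Matrix.det (Matrix.of fun i b => pderiv (B b) (F i))) =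
      (Matrix.of fun i b => (Matrix.of fun i => grad (F i) x) i (B b)).det := by
    rw [RingHom.map_det]
    rfl
  rw [h1]
  exact hdet

end Pool.Agent.Lib.MP_776403_ag.SD
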