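import Pool.Agent.Lib.MP_776403_ag.SD.SpecE
import Pool.Agent.Lib.MP_776403_ag.SD.Bas

/-!
# THEOREM SD, part E: the conormal space has dimension `c` (helper2)
-/

set_option autoImplicit false

open MvPolynomial

noncomputable section

namespace Pool.Agent.Lib.MP_776403_ag.SD

/-- The conormal space has dimension `c` and consists of the gradients of the elements of `I`. -/
theorem eCN : S_CN := by
  intro N c I hS y hy hy0
  obtain ⟨F, f, h, e, hF, -, hhy, hli, hspan⟩ := hS y hy hy0
  have hmem : ∀ G ∈ I, grad G y ∈ Submodule.span ℂ (Set.range fun i => grad (F i) y) := by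
    intro G hG
    obtain ⟨a, ha⟩ := Ideal.mem_span_range_iff_exists_fun.1 (hspan G hG)
    have h1 : grad (h * G) y = eval y h • grad G y := grad_mul_of_zero (hy G hG)
    rw [← ha, grad_sum] at h1
    have h2 : ∀ i, grad (a i * F i) y = eval y (a i) • grad (F i) y := fun i =>
      grad_mul_of_zero (hy (F i) (hF i).1)
    have h3 : grad G y = (eval y h)⁻¹ • ∑ i, eval y (a i) • grad (F i) y := by
      rw [← Finset.sum_congr rfl fun i _ => h2 i, h1, inv_smul_smul₀ hhy]
    rw [h3]
    exact Submodule.smul_mem _ _ (Submodule.sum_mem _ fun i _ =>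
      Submodule.smul_mem _ _ (Submodule.subset_span ⟨i, rfl⟩))
  have hCN : CN I y = Submodule.span ℂ (Set.range fun i => grad (F i) y) := by
    refine le_antisymm (Submodule.span_le.2 ?_) (Submodule.span_le.2 ?_)
    · rintro u ⟨G, hG, rfl⟩
      exact hmem G hG
    · rintro u ⟨i, rfl⟩
      exact Submodule.subset_span ⟨F i, (hF i).1, rfl⟩
  refine ⟨?_, fun G hG => Submodule.subset_span ⟨G, hG, rfl⟩, ?_⟩
  · rw [hCN, finrank_span_eq_card hli, Fintype.card_fin]
  · intro u hu
    refine Submodule.span_induction (p := fun u _ => ∃ F ∈ I, u = grad F y) ?_ ?_ ?_ ?_ hu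
    · rintro u ⟨G, hG, rfl⟩
      exact ⟨G, hG, rfl⟩
    · exact ⟨0, I.zero_mem, by funext i; simp [grad]⟩
    · rintro u w _ _ ⟨G, hG, rfl⟩ ⟨H, hH, rfl⟩
      exact ⟨G + H, I.add_mem hG hH, (grad_add G H y).symm⟩
    · rintro a u _ ⟨G, hG, rfl⟩
      exact ⟨C a * G, I.mul_mem_left _ hG, (grad_C_mul a G y).symm⟩

end Pool.Agent.Lib.MP_776403_ag.SD
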