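import Pool.Agent.Lib.MP_776403_ag.SD.SpecE
import Pool.Agent.Lib.MP_776403_ag.SD.Bas

/-!
# THEOREM SD, `S_Good`: good position
-/

set_option autoImplicit false

open MvPolynomial

noncomputable section

namespace Pool.Agent.Lib.MP_776403_ag.SD

/-- **Good position.** -/
theorem eGood : S_Hom → S_Good := by
  intro hH N c I x v L
  have hhom : L.dt.IsHomogeneous L.dg := (hH N c I x v L).1
  have hx : eval x L.dt ≠ 0 := L.detx
  obtain ⟨τ, hτ, hτ2⟩ : ∃ τ : ℂ, τ ≠ 0 ∧ (lin x v L.dt).eval τ ≠ 0 := by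
    by_contra hcon
    push Not at hcon
    have h1 : lin x v L.dt * Polynomial.X = 0 := by
      refine poly_ext fun t => ?_
      rw [Polynomial.eval_mul, Polynomial.eval_X, Polynomial.eval_zero]
      by_cases ht : t = 0
      · rw [ht, mul_zero]
      · rw [hcon t ht, zero_mul]
    have h2 : lin x v L.dt = 0 := (mul_eq_zero.1 h1).resolve_right Polynomial.X_ne_zero
    have h3 := lin_eval x v L.dt 0
    rw [h2, Polynomial.eval_zero, zero_smul, add_zero] at h3
    exact hx h3.symm
  refine ⟨τ⁻¹, fun h0 => hτ2 ?_⟩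
  have h4 : x + τ • v = τ • (v + τ⁻¹ • x) := by
    rw [smul_add, smul_smul, mul_inv_cancel₀ hτ, one_smul, add_comm]
  rw [lin_eval, h4, eval_smul_form hhom, h0, mul_zero]

end Pool.Agent.Lib.MP_776403_ag.SD
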