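import Pool.Agent.Lib.MP_776403_ag.SD.SpecE
import Pool.Agent.Lib.MP_776403_ag.SD.Bas
import Pool.Agent.Lib.MP_776403_ag.SD.E.CrL

/-!
# THEOREM SD, part E: the Cramer fields are tangent fields
-/

set_option autoImplicit false

open MvPolynomial

noncomputable section

namespace Pool.Agent.Lib.MP_776403_ag.SD

namespace CrAux

variable {N c : ℕ} {I : Ideal (Sx N)} {x : Vx N}

/-- The derivative of `G` along the Cramer field. -/
def EE (L : Loc I x c) (j : Fin (N + 1)) (G : Sx N) : Sx N :=
  L.dt * pderiv j G - ∑ b, L.coef b j * pderiv (L.B b) G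

theorem sum_cr (L : Loc I x c) (j : Fin (N + 1)) (G : Sx N) :
    ∑ l, pderiv l G * L.cr j l = EE L j G := by
  unfold Loc.cr EE
  simp only [mul_sub, Finset.sum_sub_distrib]
  congr 1
  · rw [Finset.sum_eq_single j]
    · rw [if_pos rfl, mul_comm]
    · intro l _ hl
      rw [if_neg hl, mul_zero]
    · intro h
      exact absurd (Finset.mem_univ j) h
  · simp only [Finset.mul_sum]
    rw [Finset.sum_comm]
    refine Finset.sum_congr rfl fun b _ => ?_
    rw [Finset.sum_eq_single (L.B b)]
    · rw [if_pos rfl, mul_comm]
    · intro l _ hl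
      rw [if_neg fun e => hl e.symm, mul_zero]
    · intro h
      exact absurd (Finset.mem_univ _) h

/-- The matrix at a point. -/
def Mz (L : Loc I x c) (z : Vx N) : Matrix (Fin c) (Fin c) ℂ := L.M.map (eval z)

theorem dt_eval (L : Loc I x c) (z : Vx N) : eval z L.dt = (Mz L z).det := by
  unfold Loc.dt Mz
  rw [RingHom.map_det]
  rfl

theorem coef_eval (L : Loc I x c) (z : Vx N) (b : Fin c) (j : Fin (N + 1)) :
    eval z (L.coef b j) = ((Mz L z).updateCol b fun i => eval z (pderiv j (L.F i))).det := by
  rw [← Matrix.cramer_apply, Matrix.cramer_eq_adjugate_mulVec]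
  unfold Loc.coef
  rw [map_sum]
  refine Finset.sum_congr rfl fun i _ => ?_
  rw [map_mul]
  congr 1
  have h := RingHom.map_adjugate (eval z) L.M
  exact congrFun (congrFun h b) i

/-- The derivatives vanish at the points of the punctured cone. -/
theorem EE_zero (L : Loc I x c) (j : Fin (N + 1)) (z : Vx N)
    (h1 : Module.finrank ℂ (CN I z) = c) (h2 : ∀ F ∈ I, grad F z ∈ CN I z) {G : Sx N}
    (hG : G ∈ I) : eval z (EE L j G) = 0 := by
  let u : Option (Fin c) → CN I z := fun o => match o with
    | none => ⟨grad G z, h2 G hG⟩
    | some i => ⟨grad (L.F i) z, h2 _ (L.memF i)⟩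
  have hdep : ¬ LinearIndependent ℂ u := by
    intro h
    have h3 := h.fintype_card_le_finrank
    rw [Fintype.card_option, Fintype.card_fin, h1] at h3
    omega
  rw [Fintype.not_linearIndependent_iff] at hdep
  obtain ⟨g, hg, hg0⟩ := hdep
  have hg1 : g none • grad G z + ∑ i, g (some i) • grad (L.F i) z = 0 := by
    have h3 := congrArg Subtype.val hg
    rw [Fintype.sum_option] at h3
    simpa [u] using h3
  have hg2 : ∀ l, g none * eval z (pderiv l G) + ∑ i, g (some i) * eval z (pderiv l (L.F i)) = 0 := by
    intro l
    have h3 := congrFun hg1 l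
    simpa [grad] using h3
  have hF : ∀ i, eval z L.dt * eval z (pderiv j (L.F i)) -
      ∑ b, eval z (L.coef b j) * eval z (pderiv (L.B b) (L.F i)) = 0 := by
    intro i
    have h3 := congrArg (eval z) (CrLAux.M_coef L i j)
    rw [map_sum, map_mul, Finset.sum_congr rfl fun b _ => map_mul _ _ _] at h3
    rw [h3, sub_self]
  have hE : eval z (EE L j G) = eval z L.dt * eval z (pderiv j G) -
      ∑ b, eval z (L.coef b j) * eval z (pderiv (L.B b) G) := by
    unfold EE
    rw [map_sub, map_mul, map_sum, Finset.sum_congr rfl fun b _ => map_mul _ _ _]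
  by_cases h0 : g none = 0
  · -- the gradients of the equations are dependent
    have hl : ∃ l : Fin c → ℂ, l ≠ 0 ∧ ∀ k, ∑ i, l i * eval z (pderiv k (L.F i)) = 0 := by
      refine ⟨fun i => g (some i), ?_, fun k => ?_⟩
      · intro h
        obtain ⟨o, ho⟩ := hg0
        rcases o with _ | i
        · exact ho h0
        · exact ho (congrFun h i)
      · have h3 := hg2 k
        rwa [h0, zero_mul, zero_add] at h3
    obtain ⟨l, hl0, hl⟩ := hl
    have hd : eval z L.dt = 0 := by
      rw [dt_eval]
      refine Matrix.exists_vecMul_eq_zero_iff.1 ⟨l, hl0, ?_⟩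
      funext b
      exact hl (L.B b)
    have hc : ∀ b, eval z (L.coef b j) = 0 := by
      intro b
      rw [coef_eval]
      refine Matrix.exists_vecMul_eq_zero_iff.1 ⟨l, hl0, ?_⟩
      funext b'
      change ∑ i, l i * (Mz L z).updateCol b (fun i => eval z (pderiv j (L.F i))) i b' = 0
      by_cases hb : b' = b
      · subst hb
        simp only [Matrix.updateCol_self]
        exact hl j
      · simp only [Matrix.updateCol_ne hb]
        exact hl (L.B b')
    rw [hE, hd, zero_mul, zero_sub, neg_eq_zero]
    exact Finset.sum_eq_zero fun b _ => by rw [hc b, zero_mul]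
  · have h4 : g none * eval z (EE L j G) = 0 := by
      have h5 : g none * eval z (EE L j G) = - ∑ i, g (some i) *
          (eval z L.dt * eval z (pderiv j (L.F i)) -
          ∑ b, eval z (L.coef b j) * eval z (pderiv (L.B b) (L.F i))) := by
        rw [hE]
        have e1 : ∀ l, g none * eval z (pderiv l G) = - ∑ i, g (some i) * eval z (pderiv l (L.F i)) :=
          fun l => eq_neg_of_add_eq_zero_left (hg2 l)
        calc g none * (eval z L.dt * eval z (pderiv j G) -
              ∑ b, eval z (L.coef b j) * eval z (pderiv (L.B b) G))
            = eval z L.dt * (g none * eval z (pderiv j G)) -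
              ∑ b, eval z (L.coef b j) * (g none * eval z (pderiv (L.B b) G)) := by
              rw [mul_sub, Finset.mul_sum]
              congr 1
              · ring
              · exact Finset.sum_congr rfl fun b _ => by ring
          _ = _ := by
              simp only [e1]
              simp only [mul_neg, Finset.mul_sum, Finset.sum_neg_distrib, mul_sub, Finset.sum_sub_distrib]
              rw [Finset.sum_comm]
              rw [sub_neg_eq_add, neg_sub, sub_eq_add_neg, add_comm]
              congr 1
              · exact Finset.sum_congr rfl fun i _ => Finset.sum_congr rfl fun b _ => by ring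
              · congr 1
                exact Finset.sum_congr rfl fun i _ => by ring
      rw [h5, neg_eq_zero]
      exact Finset.sum_eq_zero fun i _ => by rw [hF i, mul_zero]
    exact (mul_eq_zero.mp h4).resolve_left h0

end CrAux

open CrAux in
/-- The Cramer fields are tangent fields. -/
theorem eCr : S_CN → S_Null → S_Cr := by
  intro hCN hNull N c I hI hH hS x L
  refine ⟨fun j G hG => ?_, fun w hw l => ?_⟩
  · change ∑ l, pderiv l G * L.cr j l ∈ I
    rw [sum_cr]
    obtain ⟨i, hi⟩ : ∃ i, x i ≠ 0 := by
      by_contra h
      push Not at h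
      exact L.nex (funext h)
    have h1 : X i * EE L j G ∈ I := by
      refine (hNull N I hI hH).1 _ fun z hz => ?_
      rw [map_mul, eval_X]
      by_cases h0 : z = 0
      · rw [h0]
        change (0 : ℂ) * _ = 0
        rw [zero_mul]
      · obtain ⟨g1, g2, _⟩ := hCN N c I hS z hz h0
        rw [EE_zero L j z g1 g2 hG, mul_zero]
    rcases hI.mem_or_mem h1 with h2 | h2
    · exfalso
      have h3 := L.memx _ h2
      rw [eval_X] at h3
      exact hi h3
    · exact h2
  · by_cases hl : l ∈ Set.range L.B
    · obtain ⟨b, rfl⟩ := hl
      have h1 : ∑ j : L.Bc, w j.1 * L.cr j.1 (L.B b) = - ∑ j : L.Bc, L.coef b j.1 * w j.1 := by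
        rw [← Finset.sum_neg_distrib]
        refine Finset.sum_congr rfl fun j _ => ?_
        have e1 : L.cr j.1 (L.B b) = - L.coef b j.1 := by
          unfold Loc.cr
          rw [if_neg fun e => j.2 ⟨b, e⟩, zero_sub]
          congr 1
          rw [Finset.sum_eq_single b]
          · rw [if_pos rfl]
          · intro b' _ hb'
            rw [if_neg fun e => hb' (L.injB e)]
          · intro h
            exact absurd (Finset.mem_univ _) h
        rw [e1]
        ring
      rw [h1, sub_neg_eq_add]
      have h2 : L.dt * w (L.B b) + ∑ j : L.Bc, L.coef b j.1 * w j.1 =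
          ∑ i, L.M.adjugate b i * ∑ l, pderiv l (L.F i) * w l := by
        have e1 : ∀ i, ∑ l, pderiv l (L.F i) * w l = ∑ b', pderiv (L.B b') (L.F i) * w (L.B b') +
            ∑ j : L.Bc, pderiv j.1 (L.F i) * w j.1 := fun i => CrLAux.sum_split L _
        simp only [e1, mul_add, Finset.sum_add_distrib]
        congr 1
        · symm
          calc ∑ i, L.M.adjugate b i * ∑ b', pderiv (L.B b') (L.F i) * w (L.B b')
              = ∑ b', (∑ i, L.M.adjugate b i * pderiv (L.B b') (L.F i)) * w (L.B b') := by
                simp only [Finset.mul_sum]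
                rw [Finset.sum_comm]
                refine Finset.sum_congr rfl fun b' _ => ?_
                rw [Finset.sum_mul]
                exact Finset.sum_congr rfl fun i _ => by ring
            _ = L.dt * w (L.B b) := by
                rw [Finset.sum_eq_single b]
                · rw [CrLAux.adj_M, if_pos rfl]
                · intro b' _ hb'
                  rw [CrLAux.adj_M, if_neg fun e => hb' e.symm, zero_mul]
                · intro hb
                  exact absurd (Finset.mem_univ b) hb
        · simp only [Finset.mul_sum]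
          rw [Finset.sum_comm]
          refine Finset.sum_congr rfl fun j _ => ?_
          rw [Loc.coef, Finset.sum_mul]
          exact Finset.sum_congr rfl fun i _ => by ring
      rw [h2]
      exact Ideal.sum_mem _ fun i _ => Ideal.mul_mem_left _ _ (hw _ (L.memF i))
    · have h1 : ∑ j : L.Bc, w j.1 * L.cr j.1 l = L.dt * w l := by
        have e1 : ∀ j : L.Bc, L.cr j.1 l = if l = j.1 then L.dt else 0 := by
          intro j
          unfold Loc.cr
          have e2 : ∑ b, (if L.B b = l then L.coef b j.1 else 0) = 0 :=
            Finset.sum_eq_zero fun b _ => if_neg fun e => hl ⟨b, e⟩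
          rw [e2, sub_zero]
        simp only [e1]
        rw [Finset.sum_eq_single (⟨l, hl⟩ : L.Bc)]
        · rw [if_pos rfl, mul_comm]
        · intro j _ hj
          rw [if_neg, mul_zero]
          intro e
          exact hj (Subtype.ext e.symm)
        · intro h
          exact absurd (Finset.mem_univ _) h
      rw [h1, sub_self]
      exact I.zero_mem

end Pool.Agent.Lib.MP_776403_ag.SD
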