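import Pool.Agent.Lib.MP_776403_ag.SD.SpecE

/-!
# THEOREM SD, part E: (E4) adjoint matrices modulo `D` have the same rank
-/

set_option autoImplicit false

open MvPolynomial

noncomputable section

namespace Pool.Agent.Lib.MP_776403_ag.SD

namespace AdjAux

/-- A pairing whose left kernel is `K` and whose right kernel contains `K'`. -/
theorem pair_le {U V : Type} [AddCommGroup U] [AddCommGroup V] [Module ℂ U] [Module ℂ V]
    (B : U →ₗ[ℂ] V →ₗ[ℂ] ℂ) (K : Submodule ℂ U) (K' : Submodule ℂ V)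
    (hK : ∀ u, u ∈ K ↔ ∀ v, B u v = 0) (hK' : ∀ v ∈ K', ∀ u, B u v = 0)
    [Module.Finite ℂ (V ⧸ K')] :
    Module.finrank ℂ (U ⧸ K) ≤ Module.finrank ℂ (V ⧸ K') := by
  have h1 : K' ≤ LinearMap.ker B.flip := by
    intro v hv
    rw [LinearMap.mem_ker]
    ext u
    exact hK' v hv u
  set F : U →ₗ[ℂ] (V ⧸ K') →ₗ[ℂ] ℂ := (K'.liftQ B.flip h1).flip with hF
  have hFa : ∀ u v, F u (Submodule.Quotient.mk v) = B u v := fun u v => rfl
  have h2 : LinearMap.ker F = K := by
    ext u
    rw [LinearMap.mem_ker, hK]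
    constructor
    · intro h v
      rw [← hFa, h]
      rfl
    · intro h
      apply LinearMap.ext
      intro q
      obtain ⟨v, rfl⟩ := Submodule.Quotient.mk_surjective _ q
      rw [hFa, h]
      rfl
  have h3 : Function.Injective (K.liftQ F h2.ge) := by
    rw [← LinearMap.ker_eq_bot]
    exact Submodule.ker_liftQ_eq_bot _ _ _ h2.le
  have h4 := LinearMap.finrank_le_finrank_of_injective h3
  rw [Subspace.dual_finrank_eq] at h4
  exact h4

variable {α β : Type} [Fintype α] [Fintype β]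

/-- The bilinear form `(u, y) ↦ φ (∑ y_a W_ab u_b)`. -/
def bil (φ : Polynomial ℂ →ₗ[ℂ] ℂ) (W : Matrix α β (Polynomial ℂ)) :
    (β → Polynomial ℂ) →ₗ[ℂ] (α → Polynomial ℂ) →ₗ[ℂ] ℂ :=
  LinearMap.mk₂ ℂ (fun u y => φ (∑ a, y a * ∑ b, W a b * u b))
    (by
      intro u u' y
      rw [← map_add, ← Finset.sum_add_distrib]
      congr 1
      refine Finset.sum_congr rfl fun a _ => ?_
      rw [← mul_add, ← Finset.sum_add_distrib]
      congr 1
      refine Finset.sum_congr rfl fun b _ => ?_
      rw [Pi.add_apply, mul_add])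
    (by
      intro c u y
      rw [← map_smul, Finset.smul_sum]
      congr 1
      refine Finset.sum_congr rfl fun a _ => ?_
      rw [← mul_smul_comm, Finset.smul_sum]
      congr 1
      refine Finset.sum_congr rfl fun b _ => ?_
      rw [Pi.smul_apply, mul_smul_comm])
    (by
      intro u y y'
      rw [← map_add, ← Finset.sum_add_distrib]
      congr 1
      refine Finset.sum_congr rfl fun a _ => ?_
      rw [Pi.add_apply, add_mul])
    (by
      intro c u y
      rw [← map_smul, Finset.smul_sum]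
      congr 1
      refine Finset.sum_congr rfl fun a _ => ?_
      rw [Pi.smul_apply, smul_mul_assoc])

theorem bil_apply (φ : Polynomial ℂ →ₗ[ℂ] ℂ) (W : Matrix α β (Polynomial ℂ))
    (u : β → Polynomial ℂ) (y : α → Polynomial ℂ) :
    bil φ W u y = φ (∑ a, y a * ∑ b, W a b * u b) := rfl

omit [Fintype α] in
theorem mem_divM (D : Polynomial ℂ) (W : Matrix α β (Polynomial ℂ)) (u : β → Polynomial ℂ) :
    u ∈ divM D W ↔ ∀ a, D ∣ ∑ b, W a b * u b := Iff.rfl

omit [Fintype α] in
theorem fin (D : Polynomial ℂ) (hD : D ≠ 0) (W : Matrix α β (Polynomial ℂ)) :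
    Module.Finite ℂ ((β → Polynomial ℂ) ⧸ divM D W) := by
  classical
  have hfin : Module.Finite ℂ (Polynomial.degreeLT ℂ D.natDegree) :=
    Module.Finite.equiv (Polynomial.degreeLTEquiv ℂ D.natDegree).symm
  let inc : (β → Polynomial.degreeLT ℂ D.natDegree) →ₗ[ℂ] (β → Polynomial ℂ) :=
    LinearMap.pi fun b => (Submodule.subtype _).comp (LinearMap.proj b)
  let ψ : (β → Polynomial.degreeLT ℂ D.natDegree) →ₗ[ℂ] ((β → Polynomial ℂ) ⧸ divM D W) :=
    ((divM D W).mkQ.restrictScalars ℂ).comp inc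
  refine Module.Finite.of_surjective ψ ?_
  intro q
  obtain ⟨u, rfl⟩ := Submodule.Quotient.mk_surjective _ q
  have hmem : ∀ b, u b % D ∈ Polynomial.degreeLT ℂ D.natDegree := by
    intro b
    rw [Polynomial.mem_degreeLT, ← Polynomial.degree_eq_natDegree hD]
    exact Polynomial.degree_mod_lt _ hD
  refine ⟨fun b => ⟨u b % D, hmem b⟩, ?_⟩
  have h1 : ψ (fun b => ⟨u b % D, hmem b⟩) = Submodule.Quotient.mk fun b => u b % D := rfl
  rw [h1, Submodule.Quotient.eq, mem_divM]
  intro a
  refine Finset.dvd_sum fun b _ => Dvd.dvd.mul_left ?_ _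
  have h2 : D * (u b / D) + u b % D = u b := EuclideanDomain.div_add_mod _ _
  rw [Pi.sub_apply]
  refine ⟨-(u b / D), ?_⟩
  linear_combination h2

theorem le (φ : Polynomial ℂ →ₗ[ℂ] ℂ) (D : Polynomial ℂ) (hD : D ≠ 0)
    (h0 : ∀ f, D ∣ f → φ f = 0) (h1 : ∀ f, (∀ g, φ (g * f) = 0) → D ∣ f)
    (W : Matrix α β (Polynomial ℂ)) :
    Module.finrank ℂ ((β → Polynomial ℂ) ⧸ divM D W) ≤
      Module.finrank ℂ ((α → Polynomial ℂ) ⧸ divM D W.transpose) := by
  classical
  have e1 := Submodule.Quotient.restrictScalarsEquiv ℂ (divM D W)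
  have e2 := Submodule.Quotient.restrictScalarsEquiv ℂ (divM D W.transpose)
  have hf := fin D hD W.transpose
  have hf' : Module.Finite ℂ ((α → Polynomial ℂ) ⧸
      (divM D W.transpose).restrictScalars ℂ) := Module.Finite.equiv e2.symm
  rw [← e1.finrank_eq, ← e2.finrank_eq]
  refine pair_le (bil φ W) _ _ ?_ ?_
  · intro u
    rw [Submodule.restrictScalars_mem, mem_divM]
    constructor
    · intro h y
      rw [bil_apply]
      exact h0 _ (Finset.dvd_sum fun a _ => Dvd.dvd.mul_left (h a) _)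
    · intro h a
      refine h1 _ fun g => ?_
      have h2 := h (Pi.single a g)
      rw [bil_apply, Finset.sum_eq_single a] at h2
      · rw [Pi.single_eq_same] at h2
        exact h2
      · intro b _ hb
        rw [Pi.single_eq_of_ne hb, zero_mul]
      · intro ha
        exact absurd (Finset.mem_univ a) ha
  · intro y hy u
    rw [Submodule.restrictScalars_mem, mem_divM] at hy
    rw [bil_apply]
    refine h0 _ ?_
    have h2 : ∑ a, y a * ∑ b, W a b * u b =
        ∑ b, (∑ a, W.transpose b a * y a) * u b := by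
      simp only [Finset.mul_sum, Finset.sum_mul]
      rw [Finset.sum_comm]
      refine Finset.sum_congr rfl fun b _ => Finset.sum_congr rfl fun a _ => ?_
      rw [Matrix.transpose_apply]
      ring
    rw [h2]
    exact Finset.dvd_sum fun b _ => Dvd.dvd.mul_right (hy b) _

end AdjAux

theorem eAdj : S_Phi → S_Adj := by
  intro hPhi α β _ _ D W hD
  obtain ⟨φ, h0, h1⟩ := hPhi D hD
  refine ⟨AdjAux.fin D hD W, AdjAux.fin D hD W.transpose, le_antisymm ?_ ?_⟩
  · exact AdjAux.le φ D hD h0 h1 W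
  · have h2 := AdjAux.le φ D hD h0 h1 W.transpose
    rw [Matrix.transpose_transpose] at h2
    exact h2

end Pool.Agent.Lib.MP_776403_ag.SD
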