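import Pool.Agent.Lib.MP_776403_ag.SD.SpecE

/-!
# THEOREM SD, part E: the colength of the tangent module on a line (module ColT)
-/

set_option autoImplicit false

open MvPolynomial

noncomputable section

namespace Pool.Agent.Lib.MP_776403_ag.SD

namespace ColTAux

/-- Quotients of a module over `ℂ[t]` by a larger submodule. -/
theorem quot_le {P : Type} [AddCommGroup P] [Module (Polynomial ℂ) P] [Module ℂ P]
    [IsScalarTower ℂ (Polynomial ℂ) P] {M M' : Submodule (Polynomial ℂ) P} (h : M ≤ M')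
    (hf : Module.Finite ℂ (P ⧸ M)) :
    Module.Finite ℂ (P ⧸ M') ∧ Module.finrank ℂ (P ⧸ M') ≤ Module.finrank ℂ (P ⧸ M) := by
  let f : (P ⧸ M) →ₗ[ℂ] (P ⧸ M') := (Submodule.factor h).restrictScalars ℂ
  have hs : Function.Surjective f := Submodule.factor_surjective h
  exact ⟨Module.Finite.of_surjective f hs, LinearMap.finrank_le_finrank_of_surjective hs⟩

end ColTAux

open ColTAux in
theorem eColT : S_LinB → S_Cr → S_CrL → S_Col → S_Sat → S_Adj → S_ColT := by
  intro _ _ hCrL hCol hSat hAdj N c d I hI x v0 hl L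
  obtain ⟨hD, -, hG, -⟩ := hCrL N c I x v0 x 0 L (by simp) hl.2
  have hS := hSat N c I hI.prime hI.hom hI.smooth x v0 hl L
  obtain ⟨hf1, hf2, hf3⟩ := hAdj (Fin c) L.Bc (lin x v0 L.dt)
    (Matrix.of fun (b : Fin c) (j : L.Bc) => lin x v0 (L.coef b j.1)) hD
  obtain ⟨hc1, hc2, hc3⟩ := hCol N c d I hI x v0 hl L
  have hE : L.E v0 ≤ divM (lin x v0 L.dt)
      (Matrix.of fun (b : Fin c) (j : L.Bc) => lin x v0 (L.coef b j.1)).transpose := by
    refine Submodule.span_le.2 ?_
    rintro e ⟨F, hF, rfl⟩ j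
    exact ⟨_, (hG F hF j.1).symm⟩
  refine ⟨fun e => hS fun a => ?_, (quot_le hS hf1).1, ?_⟩
  · refine Finset.dvd_sum fun b _ => ?_
    exact ⟨(Matrix.of fun (b : Fin c) (j : L.Bc) => lin x v0 (L.coef b j.1)) a b * e b, by ring⟩
  · have h1 := (quot_le hS hf1).2
    have h2 := (quot_le hE hc2).2
    have h3 := hf3
    lia

end Pool.Agent.Lib.MP_776403_ag.SD
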