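import Pool.Agent.Lib.MP_776403_ag.SD.SpecE

/-!
# THEOREM SD, part E, (E5): the dimension of the annihilator
-/

set_option autoImplicit false

open MvPolynomial

noncomputable section

namespace Pool.Agent.Lib.MP_776403_ag.SD

namespace DuaAux

variable {τ : Type} [Fintype τ]

/-- The pairing `(p, f) ↦ φ(∑ p_i f_i)`. -/
def pair (φ : Polynomial ℂ →ₗ[ℂ] ℂ) :
    (τ → Polynomial ℂ) →ₗ[ℂ] Module.Dual ℂ (τ → Polynomial ℂ) :=
  LinearMap.mk₂ ℂ (fun p f => φ (∑ i, p i * f i))
    (fun p p' f => by simp only [Pi.add_apply, add_mul, Finset.sum_add_distrib, map_add])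
    (fun a p f => by
      simp only [Pi.smul_apply, smul_mul_assoc, ← Finset.smul_sum, map_smul])
    (fun p f f' => by simp only [Pi.add_apply, mul_add, Finset.sum_add_distrib, map_add])
    (fun a p f => by
      simp only [Pi.smul_apply, mul_smul_comm, ← Finset.smul_sum, map_smul])

theorem pair_apply (φ : Polynomial ℂ →ₗ[ℂ] ℂ) (p f : τ → Polynomial ℂ) :
    pair φ p f = φ (∑ i, p i * f i) := rfl

theorem finite_degreeLT (n : ℕ) : Module.Finite ℂ (Polynomial.degreeLT ℂ n) :=
  Module.Finite.equiv (Polynomial.degreeLTEquiv ℂ n).symm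

theorem finrank_degreeLT (n : ℕ) : Module.finrank ℂ (Polynomial.degreeLT ℂ n) = n := by
  rw [(Polynomial.degreeLTEquiv ℂ n).finrank_eq, Module.finrank_fin_fun]

/-- Multiplication by `D`. -/
def mulD (D : Polynomial ℂ) (κ : ℕ) :
    (τ → Polynomial.degreeLT ℂ κ) →ₗ[ℂ] (τ → Polynomial ℂ) where
  toFun p := fun i => D * (p i : Polynomial ℂ)
  map_add' p q := by
    funext i
    simp only [Pi.add_apply, Submodule.coe_add, mul_add]
  map_smul' a p := by
    funext i
    simp only [Pi.smul_apply, Submodule.coe_smul, mul_smul_comm, RingHom.id_apply]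

/-- The inclusion of `annD` in the vectors of polynomials of small degree. -/
def incl (D : Polynomial ℂ) (M : Submodule (Polynomial ℂ) (τ → Polynomial ℂ)) (n : ℕ) :
    annD D M n →ₗ[ℂ] (τ → Polynomial.degreeLT ℂ n) where
  toFun p := fun i => ⟨p.1 i, p.2.1 i⟩
  map_add' _ _ := rfl
  map_smul' _ _ := rfl

theorem incl_inj (D : Polynomial ℂ) (M : Submodule (Polynomial ℂ) (τ → Polynomial ℂ)) (n : ℕ) :
    Function.Injective (incl D M n) := by
  intro p q h
  refine Subtype.ext (funext fun i => ?_)
  exact congrArg Subtype.val (congrFun h i)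

theorem finite_annD (D : Polynomial ℂ) (M : Submodule (Polynomial ℂ) (τ → Polynomial ℂ)) (n : ℕ) :
    Module.Finite ℂ (annD D M n) := by
  have := finite_degreeLT n
  exact Module.Finite.of_injective (incl D M n) (incl_inj D M n)

/-- Division by `D` of a polynomial of small degree. -/
theorem div_degree {D p : Polynomial ℂ} {κ : ℕ} (hD : D ≠ 0)
    (hp : p ∈ Polynomial.degreeLT ℂ (D.natDegree + κ)) (h : D ∣ p) :
    ∃ q ∈ Polynomial.degreeLT ℂ κ, D * q = p := by
  obtain ⟨q, rfl⟩ := h
  refine ⟨q, ?_, rfl⟩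
  by_cases hq : q = 0
  · rw [hq]; exact Submodule.zero_mem _
  rw [Polynomial.mem_degreeLT] at hp ⊢
  rw [Polynomial.degree_mul, Polynomial.degree_eq_natDegree hD,
    Polynomial.degree_eq_natDegree hq] at hp
  rw [Polynomial.degree_eq_natDegree hq]
  have h2 : D.natDegree + q.natDegree < D.natDegree + κ := by exact_mod_cast hp
  have h3 : q.natDegree < κ := by lia
  exact_mod_cast h3

end DuaAux

open DuaAux in
/-- (E5). -/
theorem eDua : S_Phi → S_Dua := by
  classical
  intro hPhi τ _ D M κ hD _ hfin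
  obtain ⟨φ, h1, h2⟩ := hPhi D hD
  have := finite_annD D M (D.natDegree + κ)
  have := finite_degreeLT κ
  refine ⟨inferInstance, ?_⟩
  set W : Submodule ℂ (τ → Polynomial ℂ) := M.restrictScalars ℂ with hW
  have : Module.Finite ℂ ((τ → Polynomial ℂ) ⧸ M) := hfin
  have eQ : ((τ → Polynomial ℂ) ⧸ W) ≃ₗ[ℂ] ((τ → Polynomial ℂ) ⧸ M) :=
    Submodule.Quotient.restrictScalarsEquiv ℂ M
  have : Module.Finite ℂ ((τ → Polynomial ℂ) ⧸ W) := Module.Finite.equiv eQ.symm
  have eA : Module.Dual ℂ ((τ → Polynomial ℂ) ⧸ W) ≃ₗ[ℂ] W.dualAnnihilator :=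
    W.dualQuotEquivDualAnnihilator
  have : Module.Finite ℂ W.dualAnnihilator := Module.Finite.equiv eA
  have hA : Module.finrank ℂ W.dualAnnihilator = Module.finrank ℂ ((τ → Polynomial ℂ) ⧸ M) := by
    rw [← eA.finrank_eq, Subspace.dual_finrank_eq, eQ.finrank_eq]
  let Θ : annD D M (D.natDegree + κ) →ₗ[ℂ] W.dualAnnihilator :=
    ((pair φ).comp (annD D M (D.natDegree + κ)).subtype).codRestrict W.dualAnnihilator
      (fun p => by
        rw [Submodule.mem_dualAnnihilator]
        intro f hf
        exact h1 _ (p.2.2 f hf))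
  have hrk := LinearMap.finrank_range_add_finrank_ker Θ
  have hr : Module.finrank ℂ (LinearMap.range Θ) ≤ Module.finrank ℂ W.dualAnnihilator :=
    Submodule.finrank_le _
  have hk : Module.finrank ℂ (LinearMap.ker Θ) ≤ Fintype.card τ * κ := by
    have hle : (LinearMap.ker Θ).map (annD D M (D.natDegree + κ)).subtype ≤
        LinearMap.range (mulD (τ := τ) D κ) := by
      rintro _ ⟨p, hp, rfl⟩
      have hp0 : ∀ f : τ → Polynomial ℂ, φ (∑ i, p.1 i * f i) = 0 := by
        intro f
        have := congrArg Subtype.val (LinearMap.mem_ker.mp hp)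
        exact congrArg (fun l : Module.Dual ℂ (τ → Polynomial ℂ) => l f) this
      have hdvd : ∀ i, D ∣ p.1 i := by
        intro i
        refine h2 _ fun g => ?_
        have := hp0 (Pi.single i g)
        rw [Finset.sum_eq_single i] at this
        · rwa [Pi.single_eq_same, mul_comm] at this
        · intro j _ hj
          rw [Pi.single_eq_of_ne hj, mul_zero]
        · intro h
          exact absurd (Finset.mem_univ i) h
      choose q hq hqe using fun i => div_degree hD (p.2.1 i) (hdvd i)
      refine ⟨fun i => ⟨q i, hq i⟩, ?_⟩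
      funext i
      exact hqe i
    calc Module.finrank ℂ (LinearMap.ker Θ)
        = Module.finrank ℂ ((LinearMap.ker Θ).map (annD D M (D.natDegree + κ)).subtype) :=
          (LinearEquiv.finrank_eq (Submodule.equivMapOfInjective _
            (annD D M (D.natDegree + κ)).injective_subtype _))
      _ ≤ Module.finrank ℂ (LinearMap.range (mulD (τ := τ) D κ)) :=
          Submodule.finrank_mono hle
      _ ≤ Module.finrank ℂ (τ → Polynomial.degreeLT ℂ κ) := LinearMap.finrank_range_le _
      _ = Fintype.card τ * κ := by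
          rw [Module.finrank_pi_fintype]
          simp [finrank_degreeLT]
  calc Module.finrank ℂ (annD D M (D.natDegree + κ))
      = Module.finrank ℂ (LinearMap.range Θ) + Module.finrank ℂ (LinearMap.ker Θ) := hrk.symm
    _ ≤ Module.finrank ℂ W.dualAnnihilator + Fintype.card τ * κ := add_le_add hr hk
    _ = Module.finrank ℂ ((τ → Polynomial ℂ) ⧸ M) + Fintype.card τ * κ := by rw [hA]

end Pool.Agent.Lib.MP_776403_ag.SD
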