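import Pool.Agent.Lib.MP_776403_ag.SD.SpecE
import Pool.Agent.Lib.MP_776403_ag.SD.Bas

/-!
# THEOREM SD, part E: number of equations for lines
-/

set_option autoImplicit false

open MvPolynomial

noncomputable section

namespace Pool.Agent.Lib.MP_776403_ag.SD

namespace E0Aux

variable {N : ℕ}

theorem lin_dt_ne {I : Ideal (Sx N)} {x : Vx N} {c : ℕ} (L : Loc I x c) (v0 : Vx N) :
    lin x v0 L.dt ≠ 0 := by
  intro h
  have h1 := lin_eval x v0 L.dt 0
  rw [h, Polynomial.eval_zero, zero_smul, add_zero] at h1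
  exact L.detx h1.symm

/-- a functional of `FL z J` which vanishes on generators of `J` vanishes on `J` -/
theorem vanish {σ : Type} (z : σ → ℂ) (s : Set (MvPolynomial σ ℂ))
    (lam : MvPolynomial σ ℂ →ₗ[ℂ] ℂ) (h1 : ∀ f ∈ ptI z * Ideal.span s, lam f = 0)
    (h2 : ∀ f ∈ s, lam f = 0) : ∀ f ∈ Ideal.span s, lam f = 0 := by
  intro f hf
  have key : ∀ f (_ : f ∈ Submodule.span (MvPolynomial σ ℂ) s), f ∈ Ideal.span s ∧ lam f = 0 := by
    intro f hf
    refine Submodule.span_induction (p := fun f _ => f ∈ Ideal.span s ∧ lam f = 0)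
      ?_ ?_ ?_ ?_ hf
    · intro y hy
      exact ⟨Ideal.subset_span hy, h2 y hy⟩
    · exact ⟨Ideal.zero_mem _, map_zero _⟩
    · rintro y y' _ _ ⟨a1, a2⟩ ⟨b1, b2⟩
      exact ⟨Ideal.add_mem _ a1 b1, by rw [map_add, a2, b2, add_zero]⟩
    · rintro a y _ ⟨a1, a2⟩
      refine ⟨Ideal.mul_mem_left _ a a1, ?_⟩
      have h3 : (a - C (eval z a)) * y ∈ ptI z * Ideal.span s := by
        refine Ideal.mul_mem_mul ?_ a1
        rw [ptI, RingHom.mem_ker, map_sub, eval_C, sub_self]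
      have h4 : a • y = (a - C (eval z a)) * y + eval z a • y := by
        rw [smul_eq_mul, MvPolynomial.smul_eq_C_mul]
        ring
      rw [h4, map_add, h1 _ h3, zero_add, map_smul, a2, smul_zero]
  exact (key f hf).2

end E0Aux

open E0Aux

theorem eE0 : S_Dua → S_Col → S_FinB → S_Psi1 → S_E0 := by
  intro hDua hCol hFinB hPsi N c d I hyp x v0 hl L hg
  obtain ⟨hD1, hD2, hD3⟩ := hCol N c d I hyp x v0 hl L
  obtain ⟨p, hp⟩ := hPsi N c I hyp.prime x v0 hl L hg 0 (ptA 0 v0 0) (fun _ => rfl)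
    (J1 I x 0) le_rfl
  obtain ⟨hU1, hU2⟩ := hDua (Fin c) (lin x v0 L.dt) (L.E v0) 1 (lin_dt_ne L v0) hD1 hD2
  refine hFinB _ (ptA 0 v0 0) (J1 I x 0) _ (∑ i, d i) p ?_ ?_
  · rw [Fintype.card_fin, mul_one] at hU2
    lia
  · intro lam h0
    refine vanish _ _ lam.1 lam.2 ?_
    rintro f ⟨F, hF, n, rfl⟩
    exact hp lam h0 F hF n

end Pool.Agent.Lib.MP_776403_ag.SD
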