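import Pool.Agent.Lib.MP_776403_ag.SD.SpecE

/-!
# Number of generators from functionals
-/

set_option autoImplicit false

open MvPolynomial

noncomputable section

namespace Pool.Agent.Lib.MP_776403_ag.SD

namespace FinBAux

variable {σ : Type}

/-- The image of `J` modulo `𝔪 J`. -/
def W (z : σ → ℂ) (J : Ideal (MvPolynomial σ ℂ)) :
    Submodule ℂ (MvPolynomial σ ℂ ⧸ (ptI z * J).restrictScalars ℂ) :=
  (J.restrictScalars ℂ).map ((ptI z * J).restrictScalars ℂ).mkQ

/-- Restriction of a functional. -/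
def rho (z : σ → ℂ) (J : Ideal (MvPolynomial σ ℂ)) : FL z J →ₗ[ℂ] Module.Dual ℂ (W z J) where
  toFun lam := ((((ptI z * J).restrictScalars ℂ).liftQ lam.1 (fun f hf => lam.2 f hf))).comp
    (W z J).subtype
  map_add' a b := by
    ext ⟨w, hw⟩
    obtain ⟨f, hf, rfl⟩ := hw
    rfl
  map_smul' c a := by
    ext ⟨w, hw⟩
    obtain ⟨f, hf, rfl⟩ := hw
    rfl

theorem rho_apply (z : σ → ℂ) (J : Ideal (MvPolynomial σ ℂ)) (lam : FL z J)
    (f : MvPolynomial σ ℂ) (hf : ((ptI z * J).restrictScalars ℂ).mkQ f ∈ W z J) :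
    rho z J lam ⟨((ptI z * J).restrictScalars ℂ).mkQ f, hf⟩ = lam.1 f := rfl

theorem rho_surj (z : σ → ℂ) (J : Ideal (MvPolynomial σ ℂ)) :
    Function.Surjective (rho z J) := by
  intro φ
  obtain ⟨φ', hφ'⟩ := LinearMap.exists_extend φ
  refine ⟨⟨φ'.comp ((ptI z * J).restrictScalars ℂ).mkQ, ?_⟩, ?_⟩
  · intro f hf
    rw [LinearMap.comp_apply]
    have : ((ptI z * J).restrictScalars ℂ).mkQ f = 0 := by
      rw [Submodule.mkQ_apply, Submodule.Quotient.mk_eq_zero]
      exact hf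
    rw [this, map_zero]
  · rw [← hφ']
    ext ⟨w, hw⟩
    obtain ⟨f, hf, rfl⟩ := hw
    rfl

end FinBAux

open FinBAux

theorem eFinB : S_FinB := by
  intro σ _ z J U _ _ _ g Ψ hU hΨ
  have hker : LinearMap.ker Ψ ≤ LinearMap.ker (rho z J) := by
    intro lam hlam
    rw [LinearMap.mem_ker] at hlam ⊢
    ext ⟨w, hw⟩
    obtain ⟨f, hf, rfl⟩ := hw
    exact hΨ lam hlam f hf
  -- the induced surjection from the range of `Ψ`
  let θ : (FL z J ⧸ LinearMap.ker Ψ) →ₗ[ℂ] Module.Dual ℂ (W z J) :=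
    (LinearMap.ker Ψ).liftQ (rho z J) hker
  have hθ : Function.Surjective θ := by
    intro φ
    obtain ⟨lam, hlam⟩ := rho_surj z J φ
    exact ⟨Submodule.Quotient.mk lam, hlam⟩
  let e := Ψ.quotKerEquivRange
  haveI : Module.Finite ℂ (FL z J ⧸ LinearMap.ker Ψ) := Module.Finite.equiv e.symm
  haveI hD : Module.Finite ℂ (Module.Dual ℂ (W z J)) := Module.Finite.of_surjective θ hθ
  haveI hW : Module.Finite ℂ (W z J) := Module.finite_dual_iff ℂ |>.1 hD
  have hrank : Module.finrank ℂ (W z J) ≤ g := by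
    rw [← Subspace.dual_finrank_eq (K := ℂ) (V := W z J)]
    refine (LinearMap.finrank_le_finrank_of_surjective (f := θ) hθ).trans ?_
    rw [LinearEquiv.finrank_eq e]
    exact (Submodule.finrank_le _).trans hU
  -- lift a basis
  let bW := Module.finBasis ℂ (W z J)
  have hlift : ∀ i, ∃ f ∈ J, ((ptI z * J).restrictScalars ℂ).mkQ f = (bW i).1 := by
    intro i
    obtain ⟨f, hf, h⟩ := (bW i).2
    exact ⟨f, hf, h⟩
  choose F hF hF' using hlift
  refine ⟨fun i => if h : (i : ℕ) < Module.finrank ℂ (W z J) then F ⟨i, h⟩ else 0, ?_, ?_⟩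
  · intro i
    by_cases h : (i : ℕ) < Module.finrank ℂ (W z J)
    · simp only [h, dif_pos]; exact hF _
    · simp only [h, dif_neg, not_false_eq_true]; exact J.zero_mem
  · intro f hf
    have hfW : ((ptI z * J).restrictScalars ℂ).mkQ f ∈ W z J := ⟨f, hf, rfl⟩
    have hsum := bW.sum_repr ⟨((ptI z * J).restrictScalars ℂ).mkQ f, hfW⟩
    have hsum' := congrArg Subtype.val hsum
    rw [AddSubmonoidClass.coe_finset_sum] at hsum'
    simp only [SetLike.val_smul, ← hF'] at hsum'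
    simp only [← map_smul, ← map_sum] at hsum'
    have hmem : f - ∑ i, bW.repr ⟨((ptI z * J).restrictScalars ℂ).mkQ f, hfW⟩ i • F i ∈
        ptI z * J := by
      have : ((ptI z * J).restrictScalars ℂ).mkQ
          (f - ∑ i, bW.repr ⟨((ptI z * J).restrictScalars ℂ).mkQ f, hfW⟩ i • F i) = 0 := by
        rw [map_sub, hsum', sub_self]
      rw [Submodule.mkQ_apply, Submodule.Quotient.mk_eq_zero] at this
      exact this
    rw [← sub_add_cancel f
      (∑ i, bW.repr ⟨((ptI z * J).restrictScalars ℂ).mkQ f, hfW⟩ i • F i)]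
    refine Submodule.add_mem _ (Submodule.mem_sup_right hmem) (Submodule.mem_sup_left ?_)
    refine Submodule.sum_mem _ fun i _ => ?_
    rw [MvPolynomial.smul_eq_C_mul]
    refine Ideal.mul_mem_left _ _ (Ideal.subset_span ⟨⟨i, i.2.trans_le hrank⟩, ?_⟩)
    simp only [i.2, dif_pos, Fin.eta]

end Pool.Agent.Lib.MP_776403_ag.SD
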