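import Pool.Agent.Lib.MP_776403_ag.SD.SpecE
import Pool.Agent.Lib.MP_776403_ag.SD.Bas

/-!
# THEOREM SD, part E: the coefficients of `F(x + t v)`, `v` the generic vector
-/

set_option autoImplicit false

open MvPolynomial

noncomputable section

namespace Pool.Agent.Lib.MP_776403_ag.SD

namespace LinSAux

variable {N : ℕ}

theorem linS_C (x : Vx N) (a : ℂ) : linS x (C a) = Polynomial.C (C a) := by
  unfold linS
  rw [aeval_C]
  rfl

theorem linS_X (x : Vx N) (i : Fin (N + 1)) :
    linS x (X i) = Polynomial.C (C (x i)) + Polynomial.C (X i) * Polynomial.X := by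
  unfold linS
  rw [aeval_X]

theorem linA_C (k : ℕ) (x : Vx N) (a : ℂ) : linA k x (C a) = Polynomial.C (C a) := by
  unfold linA
  rw [aeval_C]
  rfl

theorem linA_X (k : ℕ) (x : Vx N) (i : Fin (N + 1)) :
    linA k x (X i) = Polynomial.C (C (x i)) + Polynomial.C (X (Sum.inl i)) * Polynomial.X := by
  unfold linA
  rw [aeval_X]

theorem lin_C (x z : Vx N) (a : ℂ) : lin x z (C a) = Polynomial.C a := by
  unfold lin
  rw [aeval_C]
  rfl

theorem lin_X (x z : Vx N) (i : Fin (N + 1)) :
    lin x z (X i) = Polynomial.C (x i) + Polynomial.C (z i) * Polynomial.X := by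
  unfold lin
  rw [aeval_X]

theorem linA_map (k : ℕ) (x : Vx N) (F : Sx N) :
    linA k x F = (linS x F).map
      (rename (Sum.inl : Fin (N + 1) → Fin (N + 1) ⊕ (Fin (N + 1) × Fin k))).toRingHom := by
  induction F using MvPolynomial.induction_on with
  | C a =>
    rw [linA_C, linS_C, Polynomial.map_C]
    simp
  | add p q hp hq => rw [map_add, map_add, Polynomial.map_add, hp, hq]
  | mul_X p i hp =>
    rw [map_mul, map_mul, Polynomial.map_mul, hp, linA_X, linS_X, Polynomial.map_add,
      Polynomial.map_mul, Polynomial.map_C, Polynomial.map_C, Polynomial.map_X]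
    simp

theorem lin_map (x z : Vx N) (F : Sx N) :
    lin x z F = (linS x F).map (eval z) := by
  induction F using MvPolynomial.induction_on with
  | C a =>
    rw [lin_C, linS_C, Polynomial.map_C]
    simp
  | add p q hp hq => rw [map_add, map_add, Polynomial.map_add, hp, hq]
  | mul_X p i hp =>
    rw [map_mul, map_mul, Polynomial.map_mul, hp, lin_X, linS_X, Polynomial.map_add,
      Polynomial.map_mul, Polynomial.map_C, Polynomial.map_C, Polynomial.map_X]
    simp

theorem hom_coeff (x : Vx N) (F : Sx N) : ∀ n : ℕ, ((linS x F).coeff n).IsHomogeneous n := by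
  induction F using MvPolynomial.induction_on with
  | C a =>
    intro n
    rw [linS_C, Polynomial.coeff_C]
    split_ifs with h
    · rw [h]
      exact isHomogeneous_C _ _
    · exact isHomogeneous_zero _ _ _
  | add p q hp hq =>
    intro n
    rw [map_add, Polynomial.coeff_add]
    exact (hp n).add (hq n)
  | mul_X p i hp =>
    intro n
    rw [map_mul, linS_X, mul_add, Polynomial.coeff_add, ← mul_assoc, Polynomial.coeff_mul_C]
    have h1 : ((linS x p).coeff n * C (x i)).IsHomogeneous n := by
      have := (hp n).mul (isHomogeneous_C (Fin (N + 1)) (x i))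
      rwa [add_zero] at this
    refine h1.add ?_
    cases n with
    | zero =>
      rw [Polynomial.mul_coeff_zero, Polynomial.coeff_X_zero, mul_zero]
      exact isHomogeneous_zero _ _ _
    | succ n =>
      rw [Polynomial.coeff_mul_X, Polynomial.coeff_mul_C]
      exact (hp n).mul (isHomogeneous_X ℂ i)

end LinSAux

open LinSAux

theorem eLinS : S_LinB → S_LinS := by
  intro _ N x F n
  have h2 : ∀ (z : Vx N) (n : ℕ), eval z ((linS x F).coeff n) = (lin x z F).coeff n := by
    intro z n
    rw [lin_map, Polynomial.coeff_map]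
  refine ⟨fun k => ?_, fun z => h2 z n, hom_coeff x F n, fun m hm => ⟨?_, fun hmn => ?_⟩, ?_⟩
  · rw [linA_map, Polynomial.coeff_map]
    rfl
  · refine MvPolynomial.funext fun z => ?_
    rw [h2, lin_coeff_top hm]
  · refine MvPolynomial.funext fun z => ?_
    rw [h2, map_zero]
    have h3 := lin_mem hm x z
    rw [Polynomial.mem_degreeLT] at h3
    refine Polynomial.coeff_eq_zero_of_degree_lt (lt_of_lt_of_le h3 ?_)
    exact_mod_cast hmn
  · refine MvPolynomial.funext fun z => ?_
    rw [h2, eval_C, Polynomial.coeff_zero_eq_eval_zero, lin_eval, zero_smul, add_zero]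

end Pool.Agent.Lib.MP_776403_ag.SD
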