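import Pool.Agent.Lib.MP_776403_ag.SD.SpecE
import Pool.Agent.Lib.MP_776403_ag.SD.Bas

/-!
# THEOREM SD, part E: assembly of `S_Line`
-/

set_option autoImplicit false

open MvPolynomial

noncomputable section

namespace Pool.Agent.Lib.MP_776403_ag.SD

variable {N : ℕ}

namespace LineOfAux

theorem mem_x {I : Ideal (Sx N)} {x v : Vx N} (h : IsLine I x v) : x ∈ zer I := by
  have := h.2 1 0
  rwa [one_smul, zero_smul, add_zero] at this

theorem ne_x {I : Ideal (Sx N)} {x v : Vx N} (h : IsLine I x v) : x ≠ 0 := by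
  have := line_ne_zero h.1 (s := 1) (t := 0) (Or.inl one_ne_zero)
  rwa [one_smul, zero_smul, add_zero] at this

/-- Moving the second vector along the first one. -/
theorem shift {I : Ideal (Sx N)} {x v : Vx N} (h : IsLine I x v) (μ : ℂ) :
    IsLine I x (v + μ • x) := by
  have key : ∀ s t : ℂ, s • x + t • (v + μ • x) = (s + t * μ) • x + t • v := by
    intro s t
    rw [smul_add, smul_smul, add_smul]
    abel
  refine ⟨LinearIndependent.pair_iff.mpr fun s t hst => ?_, fun s t => ?_⟩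
  · rw [key] at hst
    have h1 := LinearIndependent.pair_iff.mp h.1 _ _ hst
    refine ⟨?_, h1.2⟩
    have h2 := h1.1
    rwa [h1.2, zero_mul, add_zero] at h2
  · rw [key]
    exact h.2 _ _

end LineOfAux

open LineOfAux

theorem eLineOf : S_LineOf := by
  intro hLoc hGood hE0 hWH hPt hKrull hFrac hP0 N c d I hI x v0 hl
  obtain ⟨L⟩ := hLoc N c I hI.smooth x (mem_x hl) (ne_x hl)
  obtain ⟨μ, hμ⟩ := hGood N c I x v0 L
  have hl1 := shift hl μ
  obtain ⟨b, hb, hle⟩ := hE0 N c d I hI x (v0 + μ • x) hl1 L hμ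
  have hpt := hPt N I hI.hom x (v0 + μ • x) 0 hl1 0 (Submodule.zero_mem _)
  obtain ⟨P, hPp, hJP, _, hPw, y, hy⟩ := hKrull (Fin (N + 1) ⊕ (Fin (N + 1) × Fin 0)) (wt N 0)
    (J1 I x 0) (ptA 0 (v0 + μ • x) 0) (∑ i, d i) b (hWH N I x 0 0).1 hpt.2.2.2.1 hb hle
  have hdim := hFrac N (Fin (N + 1) × Fin 0) P _ y hPp hy (fun s => s.2.elim0)
  have hc : Fintype.card (Fin (N + 1) ⊕ (Fin (N + 1) × Fin 0)) - ∑ i, d i =
      N + 1 - ∑ i, d i := by simp
  rw [hc] at hdim
  obtain ⟨h1, h2, h3, h4⟩ := hP0 N I hI.hom x 0 P hPp hPw hJP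
  exact ⟨P0 P, h1, h2, h3, hdim, h4⟩

end Pool.Agent.Lib.MP_776403_ag.SD
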