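import Pool.Agent.Lib.MP_776403_ag.SD.SpecE
import Pool.Agent.Lib.MP_776403_ag.SD.Bas

/-!
# THEOREM SD, part E: the ideal of `v` induced by an ideal of `Ak`
-/

set_option autoImplicit false

open MvPolynomial

noncomputable section

namespace Pool.Agent.Lib.MP_776403_ag.SD

namespace P0Aux

variable {N : ℕ}

theorem wt_map (k : ℕ) (d : Fin (N + 1) →₀ ℕ) :
    Finsupp.weight (wt N k) (d.mapDomain Sum.inl) = d.degree := by
  rw [Finsupp.weight_apply, Finsupp.sum_mapDomain_index (by simp) (by
    intro a b c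
    rw [add_smul])]
  simp only [wt, Finsupp.sum, smul_eq_mul, mul_one]
  rfl

theorem ren_comp (k n : ℕ) (p : Sx N) :
    rename (Sum.inl : Fin (N + 1) → Fin (N + 1) ⊕ (Fin (N + 1) × Fin k))
      (homogeneousComponent n p) = weightedHomogeneousComponent (wt N k) n (rename Sum.inl p) := by
  induction p using MvPolynomial.induction_on' with
  | monomial d c =>
    rw [rename_monomial,
      homogeneousComponent_of_mem (isHomogeneous_monomial c rfl),
      weightedHomogeneousComponent_of_mem (isWeightedHomogeneous_monomial (wt N k) _ c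
        (wt_map k d))]
    split_ifs <;> simp [rename_monomial]
  | add p q hp hq => simp [map_add, hp, hq]

end P0Aux

open P0Aux in
theorem eP0 : S_LinB → S_LinS → S_P0 := by
  intro hLB hLS N I hI x k P hP hW hJ
  have memP0 : ∀ F : Sx N, F ∈ P0 P ↔ rename Sum.inl F ∈ P := fun F => Iff.rfl
  have hq : ∀ F ∈ I, ∀ n : ℕ, (linS x F).coeff n ∈ P0 P := by
    intro F hF n
    rw [memP0, ← (hLS N x F n).1 k]
    exact hJ (Ideal.subset_span ⟨F, hF, n, rfl⟩)
  refine ⟨?_, ?_, ?_, ?_⟩
  · have := hP
    exact Ideal.comap_isPrime _ P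
  · intro F hF m
    rw [memP0, ren_comp]
    exact hW _ hF m
  · intro F hF
    rw [← sum_homogeneousComponent F]
    refine Ideal.sum_mem _ fun m _ => ?_
    have h1 := hq _ (hI F hF m) m
    rwa [((hLS N x _ m).2.2.2.1 m (homogeneousComponent_isHomogeneous m F)).1] at h1
  · intro z hz s t F hF
    rw [← sum_homogeneousComponent F, map_sum]
    refine Finset.sum_eq_zero fun m _ => ?_
    rw [((hLB N x z _).2.1 m (homogeneousComponent_isHomogeneous m F)).2.2 s t]
    refine Finset.sum_eq_zero fun j _ => ?_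
    have h1 := hz _ (hq _ (hI F hF m) j)
    rw [(hLS N x _ j).2.1 z] at h1
    rw [h1]
    ring

end Pool.Agent.Lib.MP_776403_ag.SD
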