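import Pool.Agent.Lib.MP_776403_ag.SD.SpecE

/-!
# THEOREM SD, part E: assembly of the perpendicularity statement
-/

set_option autoImplicit false

open MvPolynomial

noncomputable section

namespace Pool.Agent.Lib.MP_776403_ag.SD

namespace PerpOfAux

variable {N c : ℕ} {I : Ideal (Sx N)} {y : Vx N}

/-- the pairing with a Cramer field -/
theorem pair_cr (L : Loc I y c) (u : Vx N) (j : Fin (N + 1)) :
    ∑ i, u i * eval y (L.cr j i) =
      eval y L.dt * u j - ∑ b, eval y (L.coef b j) * u (L.B b) := by
  classical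
  have h1 : ∀ i, u i * eval y (L.cr j i) = (if i = j then eval y L.dt * u i else 0) -
      ∑ b, if L.B b = i then eval y (L.coef b j) * u i else 0 := by
    intro i
    unfold Loc.cr
    rw [map_sub, map_sum, mul_sub, Finset.mul_sum]
    have e1 : u i * eval y (if i = j then L.dt else 0) =
        if i = j then eval y L.dt * u i else 0 := by
      split_ifs
      · ring
      · rw [map_zero, mul_zero]
    have e2 : ∀ b, u i * eval y (if L.B b = i then L.coef b j else 0) =
        if L.B b = i then eval y (L.coef b j) * u i else 0 := by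
      intro b
      split_ifs
      · ring
      · rw [map_zero, mul_zero]
    rw [e1, Finset.sum_congr rfl (fun b _ => e2 b)]
  rw [Finset.sum_congr rfl (fun i _ => h1 i), Finset.sum_sub_distrib, Finset.sum_comm]
  rw [Finset.sum_ite_eq' Finset.univ j, if_pos (Finset.mem_univ _)]
  have h2 : ∀ b, ∑ i, (if L.B b = i then eval y (L.coef b j) * u i else 0) =
      eval y (L.coef b j) * u (L.B b) := by
    intro b
    rw [Finset.sum_ite_eq Finset.univ (L.B b), if_pos (Finset.mem_univ _)]
  rw [Finset.sum_congr rfl (fun b _ => h2 b)]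

end PerpOfAux

open PerpOfAux in
theorem ePerpOf : S_PerpOf := by
  classical
  intro hLoc hHom hCN hCr N c I hp hh hS y hy hy0
  obtain ⟨h1, h2, h3⟩ := hCN N c I hS y hy hy0
  refine ⟨h1, h2, h3, ?_⟩
  intro u hu
  obtain ⟨L⟩ := hLoc N c I hS y hy hy0
  have hcr := (hCr N c I hp hh hS y L).1
  have hhom := (hHom N c I y y L).2.2.1
  have hD : eval y L.dt ≠ 0 := L.detx
  have hrel : ∀ j, eval y L.dt * u j = ∑ b, eval y (L.coef b j) * u (L.B b) := by
    intro j
    have h4 := hu (L.cr j) (hcr j) L.dg (hhom j)
    rw [pair_cr L u j] at h4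
    exact sub_eq_zero.1 h4
  have hrelF : ∀ i, ∀ j, eval y L.dt * grad (L.F i) y j =
      ∑ b, eval y (L.coef b j) * grad (L.F i) y (L.B b) := by
    intro i j
    have h4 := hy _ (hcr j (L.F i) (L.memF i))
    rw [map_sum, Finset.sum_congr rfl (fun l _ => map_mul (eval y) _ _)] at h4
    have h5 := pair_cr L (grad (L.F i) y) j
    unfold grad at h5
    rw [h4] at h5
    exact (sub_eq_zero.1 h5.symm)
  -- the invertible matrix
  let M : Matrix (Fin c) (Fin c) ℂ := (eval y).mapMatrix L.M
  have hM : IsUnit M.det := by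
    rw [isUnit_iff_ne_zero, ← RingHom.map_det]
    exact hD
  let uB : Fin c → ℂ := fun b => u (L.B b)
  let a : Fin c → ℂ := Matrix.vecMul uB M⁻¹
  have ha : Matrix.vecMul a M = uB := by
    rw [Matrix.vecMul_vecMul, Matrix.nonsing_inv_mul M hM, Matrix.vecMul_one]
  let e : Vx N := ∑ i, a i • grad (L.F i) y
  have he : e ∈ CN I y :=
    Submodule.sum_mem _ (fun i _ => Submodule.smul_mem _ _ (h2 _ (L.memF i)))
  have heB : ∀ b, e (L.B b) = u (L.B b) := by
    intro b
    have h6 := congrFun ha b
    have h7 : Matrix.vecMul a M b = e (L.B b) := by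
      simp only [e, Finset.sum_apply, Pi.smul_apply, smul_eq_mul, Matrix.vecMul, dotProduct]
      rfl
    rw [← h7, h6]
  have hrelE : ∀ j, eval y L.dt * e j = ∑ b, eval y (L.coef b j) * e (L.B b) := by
    intro j
    simp only [e, Finset.sum_apply, Pi.smul_apply, smul_eq_mul]
    rw [Finset.mul_sum]
    have h8 : ∀ i, eval y L.dt * (a i * grad (L.F i) y j) =
        ∑ b, eval y (L.coef b j) * (a i * grad (L.F i) y (L.B b)) := by
      intro i
      rw [mul_left_comm, hrelF i j, Finset.mul_sum]
      exact Finset.sum_congr rfl (fun b _ => by ring)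
    rw [Finset.sum_congr rfl (fun i _ => h8 i), Finset.sum_comm]
    exact Finset.sum_congr rfl (fun b _ => by rw [Finset.mul_sum])
  have hue : u = e := by
    funext j
    have h9 : eval y L.dt * u j = eval y L.dt * e j := by
      rw [hrel j, hrelE j]
      exact Finset.sum_congr rfl (fun b _ => by rw [heB b])
    exact mul_left_cancel₀ hD h9
  rw [hue]
  exact he

end Pool.Agent.Lib.MP_776403_ag.SD
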