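import Pool.Agent.Lib.MP_776403_ag.SD.SpecE

/-!
# THEOREM SD, part E: the residue functional
-/

set_option autoImplicit false

open MvPolynomial

noncomputable section

namespace Pool.Agent.Lib.MP_776403_ag.SD

/-- The functional for a monic polynomial of positive degree. -/
private theorem PhiAux.monic (D : Polynomial ℂ) (hD : D.Monic) (hd : 0 < D.natDegree) :
    ∃ φ : Polynomial ℂ →ₗ[ℂ] ℂ, (∀ f, D ∣ f → φ f = 0) ∧
      ∀ f, (∀ g, φ (g * f) = 0) → D ∣ f := by
  have hz : ∀ f, D ∣ f →
      ((Polynomial.lcoeff ℂ (D.natDegree - 1)).comp (Polynomial.modByMonicHom D)) f = 0 := by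
    intro f hf
    show Polynomial.lcoeff ℂ (D.natDegree - 1) (f %ₘ D) = 0
    rw [(Polynomial.modByMonic_eq_zero_iff_dvd hD).2 hf, map_zero]
  refine ⟨(Polynomial.lcoeff ℂ (D.natDegree - 1)).comp (Polynomial.modByMonicHom D), hz, ?_⟩
  intro f hf
  rw [← Polynomial.modByMonic_eq_zero_iff_dvd hD]
  by_contra hr
  set r := f %ₘ D with hrdef
  have hlt : r.natDegree < D.natDegree := by
    have h1 := Polynomial.degree_modByMonic_lt f hD
    rw [← hrdef] at h1
    exact Polynomial.natDegree_lt_natDegree hr h1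
  have h2 := hf (Polynomial.X ^ (D.natDegree - 1 - r.natDegree))
  have h3 : Polynomial.X ^ (D.natDegree - 1 - r.natDegree) * f =
      Polynomial.X ^ (D.natDegree - 1 - r.natDegree) * r +
        D * (Polynomial.X ^ (D.natDegree - 1 - r.natDegree) * (f /ₘ D)) := by
    have h4 := Polynomial.modByMonic_add_div f D
    rw [← hrdef] at h4
    conv_lhs => rw [← h4]
    ring
  rw [h3, map_add, hz _ (dvd_mul_right _ _), add_zero] at h2
  have hdeg : (Polynomial.X ^ (D.natDegree - 1 - r.natDegree) * r).natDegree =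
      D.natDegree - 1 := by
    rw [Polynomial.natDegree_X_pow_mul _ hr]
    omega
  have h5 : (Polynomial.X ^ (D.natDegree - 1 - r.natDegree) * r) %ₘ D =
      Polynomial.X ^ (D.natDegree - 1 - r.natDegree) * r := by
    rw [Polynomial.modByMonic_eq_self_iff hD]
    exact Polynomial.degree_lt_degree (by omega)
  have h6 : Polynomial.lcoeff ℂ (D.natDegree - 1)
      ((Polynomial.X ^ (D.natDegree - 1 - r.natDegree) * r) %ₘ D) = 0 := h2
  rw [h5, Polynomial.lcoeff_apply] at h6
  have h7 : (Polynomial.X ^ (D.natDegree - 1 - r.natDegree) * r).leadingCoeff = 0 := by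
    rw [Polynomial.leadingCoeff, hdeg, h6]
  rw [Polynomial.leadingCoeff_eq_zero] at h7
  exact hr ((mul_eq_zero.1 h7).resolve_left (pow_ne_zero _ Polynomial.X_ne_zero))

theorem ePhi : S_Phi := by
  intro D hD
  by_cases hd : D.natDegree = 0
  · refine ⟨0, fun f _ => rfl, fun f _ => ?_⟩
    exact (Polynomial.isUnit_iff_degree_eq_zero.2
      (Polynomial.degree_eq_iff_natDegree_eq hD |>.2 hd)).dvd
  · have hl : D.leadingCoeff ≠ 0 := Polynomial.leadingCoeff_ne_zero.2 hD
    have hu : IsUnit (Polynomial.C (D.leadingCoeff⁻¹)) :=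
      Polynomial.isUnit_C.2 (inv_ne_zero hl).isUnit
    have hm : (D * Polynomial.C (D.leadingCoeff⁻¹)).Monic :=
      Polynomial.monic_mul_leadingCoeff_inv hD
    have hn : 0 < (D * Polynomial.C (D.leadingCoeff⁻¹)).natDegree := by
      rw [Polynomial.natDegree_mul_C (inv_ne_zero hl)]
      omega
    obtain ⟨φ, h1, h2⟩ := PhiAux.monic _ hm hn
    refine ⟨φ, fun f hf => h1 f ?_, fun f hf => ?_⟩
    · exact (hu.mul_right_dvd).2 hf
    · exact (hu.mul_right_dvd).1 (h2 f hf)

end Pool.Agent.Lib.MP_776403_ag.SD
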