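import Pool.Agent.Lib.MP_776403_ag.SD.SpecE

/-!
# The linear map `lam ↦ p`
-/

set_option autoImplicit false

open MvPolynomial

noncomputable section

namespace Pool.Agent.Lib.MP_776403_ag.SD

namespace Psi1Aux

variable {N k : ℕ}

/-- `(linA k x G).map (eval z) = lin x v0 G`. -/
theorem map_linA (hS : S_LinS) (x v0 : Vx N) (z : Fin (N + 1) ⊕ (Fin (N + 1) × Fin k) → ℂ)
    (hz : ∀ i, z (Sum.inl i) = v0 i) (G : Sx N) :
    (linA k x G).map (eval z) = lin x v0 G := by
  ext n
  rw [Polynomial.coeff_map, (hS N x G n).1 k, eval_rename]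
  have h1 : z ∘ Sum.inl = v0 := funext hz
  rw [h1]
  exact (hS N x G n).2.1 v0

end Psi1Aux

open Psi1Aux

theorem ePsi1 : S_LinB → S_Hom → S_Th1 → S_LinS → S_mapL → S_Psi1 := by
  intro _ hHom hTh hS hM N c I hI x v0 hline L hgood k z hz J hJ
  obtain ⟨-, -, -, -, -, hc0, hdeg⟩ := hHom N c I x v0 L
  have hD0 : lin x v0 L.dt ≠ 0 := by
    intro h
    rw [h] at hc0
    exact hc0 (Polynomial.coeff_zero 0)
  have hmem : ∀ F ∈ I, ∀ n : ℕ, (linA k x F).coeff n ∈ J := fun F hF n =>
    hJ (Ideal.subset_span ⟨F, hF, n, rfl⟩)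
  -- the polynomials `θ`
  let θ : FL z J → Sx N → Polynomial ℂ := fun lam F => mapL lam.1 (linA k x F)
  have hco : ∀ (lam : FL z J) (F : Sx N) (n : ℕ), (θ lam F).coeff n = lam.1 ((linA k x F).coeff n) :=
    fun lam F n => (hM _ z J lam.1 lam.2).1 _ n
  have hth : ∀ lam : FL z J,
      (∀ b, (∑ i, lin x v0 (L.M.adjugate b i) * θ lam (L.F i)).divX ∈
        Polynomial.degreeLT ℂ (L.dg + 1)) ∧
      ∀ F ∈ I, lin x v0 L.dt * θ lam F = Polynomial.X *
        ∑ b, (∑ i, lin x v0 (L.M.adjugate b i) * θ lam (L.F i)).divX *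
          lin x v0 (pderiv (L.B b) F) := by
    intro lam
    obtain ⟨-, hadd, hmul⟩ := hM _ z J lam.1 lam.2
    refine hTh N c I x v0 L hI hline.2 (θ lam) ?_ ?_ ?_ ?_
    · intro F _ G _
      change mapL lam.1 (linA k x (F + G)) = _
      rw [map_add, hadd]
    · intro G F hF
      change mapL lam.1 (linA k x (G * F)) = _
      rw [map_mul, hmul _ _ (hmem F hF), map_linA hS x v0 z hz]
    · intro F _ m hm
      rw [Polynomial.natDegree_le_iff_coeff_eq_zero]
      intro n hn
      rw [hco, (hS N x F n).1 k, ((hS N x F n).2.2.2.1 m hm).2 hn, map_zero, map_zero]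
    · intro F hF
      rw [Polynomial.X_dvd_iff, hco, (hS N x F 0).1 k, (hS N x F 0).2.2.2.2, L.memx F hF, map_zero,
        map_zero, map_zero]
  -- the values are in `annD`
  have hcop : IsCoprime (lin x v0 L.dt) (Polynomial.X : Polynomial ℂ) := by
    refine IsCoprime.symm ((Polynomial.irreducible_X.coprime_iff_not_dvd).mpr ?_)
    rw [Polynomial.X_dvd_iff]
    exact hc0
  have hann : ∀ lam : FL z J,
      (fun b => (∑ i, lin x v0 (L.M.adjugate b i) * θ lam (L.F i)).divX) ∈
        annD (lin x v0 L.dt) (L.E v0) ((lin x v0 L.dt).natDegree + 1) := by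
    intro lam
    obtain ⟨h1, h2⟩ := hth lam
    refine ⟨fun b => ?_, fun m hm => ?_⟩
    · rw [hdeg hgood]
      exact h1 b
    · unfold Loc.E at hm
      induction hm using Submodule.span_induction with
      | mem m hm =>
        obtain ⟨F, hF, rfl⟩ := hm
        have h3 : lin x v0 L.dt ∣ Polynomial.X *
            ∑ b, (∑ i, lin x v0 (L.M.adjugate b i) * θ lam (L.F i)).divX *
              lin x v0 (pderiv (L.B b) F) := ⟨θ lam F, (h2 F hF).symm⟩
        exact hcop.dvd_of_dvd_mul_left h3
      | zero => simp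
      | add u w _ _ hu hw =>
        simp only [Pi.add_apply, mul_add, Finset.sum_add_distrib]
        exact dvd_add hu hw
      | smul g w _ hw =>
        have h4 : ∑ b, (∑ i, lin x v0 (L.M.adjugate b i) * θ lam (L.F i)).divX * (g • w) b =
            g * ∑ b, (∑ i, lin x v0 (L.M.adjugate b i) * θ lam (L.F i)).divX * w b := by
          rw [Finset.mul_sum]
          exact Finset.sum_congr rfl fun b _ => by rw [Pi.smul_apply, smul_eq_mul]; ring
        rw [h4]
        exact hw.mul_left g
  have hθadd : ∀ (lam lam' : FL z J) (F : Sx N), θ (lam + lam') F = θ lam F + θ lam' F := by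
    intro lam lam' F
    ext n
    rw [Polynomial.coeff_add, hco, hco, hco]
    rfl
  have hθsmul : ∀ (a : ℂ) (lam : FL z J) (F : Sx N), θ (a • lam) F = a • θ lam F := by
    intro a lam F
    ext n
    rw [Polynomial.coeff_smul, hco, hco]
    rfl
  refine ⟨{ toFun := fun lam => ⟨_, hann lam⟩, map_add' := ?_, map_smul' := ?_ }, ?_⟩
  · intro lam lam'
    refine Subtype.ext (funext fun b => ?_)
    change (∑ i, lin x v0 (L.M.adjugate b i) * θ (lam + lam') (L.F i)).divX =
      (∑ i, lin x v0 (L.M.adjugate b i) * θ lam (L.F i)).divX +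
      (∑ i, lin x v0 (L.M.adjugate b i) * θ lam' (L.F i)).divX
    rw [← Polynomial.divX_add, ← Finset.sum_add_distrib]
    congr 1
    exact Finset.sum_congr rfl fun i _ => by rw [hθadd, mul_add]
  · intro a lam
    refine Subtype.ext (funext fun b => ?_)
    change (∑ i, lin x v0 (L.M.adjugate b i) * θ (a • lam) (L.F i)).divX =
      a • (∑ i, lin x v0 (L.M.adjugate b i) * θ lam (L.F i)).divX
    have h1 : ∑ i, lin x v0 (L.M.adjugate b i) * θ (a • lam) (L.F i) =
        a • ∑ i, lin x v0 (L.M.adjugate b i) * θ lam (L.F i) := by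
      rw [Finset.smul_sum]
      exact Finset.sum_congr rfl fun i _ => by rw [hθsmul, mul_smul_comm]
    rw [h1]
    ext n
    rw [Polynomial.coeff_divX, Polynomial.coeff_smul, Polynomial.coeff_smul, Polynomial.coeff_divX]
  · intro lam hlam F hF n
    have h1 : ∀ b, (∑ i, lin x v0 (L.M.adjugate b i) * θ lam (L.F i)).divX = 0 := by
      intro b
      have := congrArg Subtype.val hlam
      exact congrFun this b
    have h2 := (hth lam).2 F hF
    rw [Finset.sum_eq_zero (fun b _ => by rw [h1 b, zero_mul]), mul_zero] at h2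
    have h3 : θ lam F = 0 := (mul_eq_zero.mp h2).resolve_left hD0
    rw [← hco, h3, Polynomial.coeff_zero]

end Pool.Agent.Lib.MP_776403_ag.SD
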