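import Pool.Agent.Lib.MP_776403_ag.SD.SpecE
import Pool.Agent.Lib.MP_776403_ag.SD.Bas

/-!
# THEOREM SD, part E: the linear map `lam ↦ r`
-/

set_option autoImplicit false

open MvPolynomial

noncomputable section

namespace Pool.Agent.Lib.MP_776403_ag.SD

variable {N : ℕ}

namespace Psi2Aux

/-- `⟨s(t), w(x + t v)⟩` for the generic `s`, `v`. -/
def Th (k : ℕ) (x ξ : Vx N) (w : Fin (N + 1) → Sx N) : Polynomial (Ak N k) :=
  ∑ i, sA k ξ i * linA k x (w i)

theorem Th_add (k : ℕ) (x ξ : Vx N) (w w' : Fin (N + 1) → Sx N) :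
    Th k x ξ (w + w') = Th k x ξ w + Th k x ξ w' := by
  unfold Th
  rw [← Finset.sum_add_distrib]
  refine Finset.sum_congr rfl fun i _ => ?_
  rw [Pi.add_apply, map_add, mul_add]

theorem Th_mul (k : ℕ) (x ξ : Vx N) (G : Sx N) (w : Fin (N + 1) → Sx N) :
    Th k x ξ (fun i => G * w i) = linA k x G * Th k x ξ w := by
  unfold Th
  rw [Finset.mul_sum]
  refine Finset.sum_congr rfl fun i _ => ?_
  rw [map_mul]
  ring

theorem sA_natDegree (k : ℕ) (ξ : Vx N) (i : Fin (N + 1)) : (sA k ξ i).natDegree ≤ k := by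
  unfold sA
  refine (Polynomial.natDegree_add_le _ _).trans (max_le ?_ ?_)
  · rw [Polynomial.natDegree_C]
    exact Nat.zero_le _
  · refine Polynomial.natDegree_sum_le_of_forall_le _ _ fun j _ => ?_
    refine (Polynomial.natDegree_C_mul_X_pow_le _ _).trans ?_
    have := j.2
    lia

theorem sA_coeff_zero (k : ℕ) (ξ : Vx N) (i : Fin (N + 1)) :
    (sA k ξ i).coeff 0 = C (ξ i) := by
  unfold sA
  rw [Polynomial.coeff_add, Polynomial.coeff_C_zero, Polynomial.finsetSum_coeff,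
    Finset.sum_eq_zero, add_zero]
  intro j _
  rw [Polynomial.coeff_C_mul, Polynomial.coeff_X_pow, if_neg (by lia), mul_zero]

theorem linA_natDegree (hLinS : S_LinS) (k : ℕ) (x : Vx N) {F : Sx N} {m : ℕ}
    (hF : F.IsHomogeneous m) : (linA k x F).natDegree ≤ m := by
  rw [Polynomial.natDegree_le_iff_coeff_eq_zero]
  intro n hn
  obtain ⟨h1, -, -, h4, -⟩ := hLinS N x F n
  rw [h1 k, (h4 m hF).2 hn, map_zero]

theorem Th_natDegree (hLinS : S_LinS) (k : ℕ) (x ξ : Vx N) {w : Fin (N + 1) → Sx N} {m : ℕ}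
    (hw : ∀ i, (w i).IsHomogeneous m) : (Th k x ξ w).natDegree ≤ m + k := by
  refine Polynomial.natDegree_sum_le_of_forall_le _ _ fun i _ => ?_
  refine (Polynomial.natDegree_mul_le).trans ?_
  have h1 := sA_natDegree k ξ i
  have h2 := linA_natDegree hLinS k x (hw i)
  lia

theorem linA_coeff_zero (hLinS : S_LinS) (k : ℕ) (x : Vx N) (F : Sx N) :
    (linA k x F).coeff 0 = C (eval x F) := by
  obtain ⟨h1, -, -, -, h5⟩ := hLinS N x F 0
  rw [h1 k, h5, rename_C]

theorem Th_coeff_zero (hLinS : S_LinS) (k : ℕ) (x ξ : Vx N) (w : Fin (N + 1) → Sx N) :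
    (Th k x ξ w).coeff 0 = C (∑ i, ξ i * eval x (w i)) := by
  unfold Th
  rw [Polynomial.finsetSum_coeff, map_sum]
  refine Finset.sum_congr rfl fun i _ => ?_
  rw [Polynomial.mul_coeff_zero, sA_coeff_zero, linA_coeff_zero hLinS, map_mul]

theorem lin_coeff_zero (x v : Vx N) (F : Sx N) : (lin x v F).coeff 0 = eval x F := by
  rw [Polynomial.coeff_zero_eq_eval_zero, lin_eval, zero_smul, add_zero]

/-- The hypotheses of `S_Th2` for `w ↦ mapL lam (Th w)`. -/
theorem key (hTh2 : S_Th2) (hLinS : S_LinS) (hPt : S_PtE) (hmapL : S_mapL) {c : ℕ}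
    {I : Ideal (Sx N)} (hP : I.IsPrime) (hH : IsHom I) (hS : Smooth I c) {x v0 : Vx N}
    (hl : IsLine I x v0) (L : Loc I x c) {k : ℕ} {s0 : Fin (N + 1) → Polynomial ℂ}
    (hs0 : s0 ∈ Sec I x v0 (k + 1)) {J : Ideal (Ak N k)} (hJ1 : J1 I x k ≤ J)
    (hJ2 : J2 I x (fun i => (s0 i).coeff 0) k ≤ J) (lam : Ak N k →ₗ[ℂ] ℂ)
    (h1 : ∀ f ∈ ptI (ptA k v0 s0) * J, lam f = 0)
    (h2 : ∀ F ∈ I, ∀ n : ℕ, lam ((linA k x F).coeff n) = 0) :
    (∀ j : L.Bc, (mapL lam (Th k x (fun i => (s0 i).coeff 0) (L.cr j.1))).divX ∈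
      Polynomial.degreeLT ℂ (L.dg + k)) ∧
    ∀ w ∈ TF I, lin x v0 L.dt * mapL lam (Th k x (fun i => (s0 i).coeff 0) w) = Polynomial.X *
      ∑ j : L.Bc, (mapL lam (Th k x (fun i => (s0 i).coeff 0) (L.cr j.1))).divX *
        lin x v0 (w j.1) := by
  obtain ⟨pt1, -, pt3, -, -⟩ := hPt N I hH x v0 k hl s0 hs0
  obtain ⟨m1, m2, m3⟩ := hmapL _ (ptA k v0 s0) J lam h1
  refine hTh2 N c I hP hH hS x v0 L hl.2 k
    (fun w => mapL lam (Th k x (fun i => (s0 i).coeff 0) w)) ?_ ?_ ?_ ?_ ?_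
  · intro w _ w' _
    rw [Th_add, m2]
  · intro G w hw
    rw [Th_mul, m3 (Th k x _ w) (linA k x G) ?_, pt1]
    intro n
    exact hJ2 (Ideal.subset_span ⟨w, hw, n, rfl⟩)
  · intro F hF u
    rw [Th_mul, mul_comm, m3 (linA k x F) (Th k x _ u) ?_]
    · have h3 : mapL lam (linA k x F) = 0 := by
        refine Polynomial.ext fun n => ?_
        rw [m1, h2 F hF n, Polynomial.coeff_zero]
      rw [h3, mul_zero]
    · intro n
      exact hJ1 (Ideal.subset_span ⟨F, hF, n, rfl⟩)
  · intro w _ m hm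
    rw [Polynomial.natDegree_le_iff_coeff_eq_zero]
    intro n hn
    rw [m1, Polynomial.coeff_eq_zero_of_natDegree_lt
      (lt_of_le_of_lt (Th_natDegree hLinS k x _ hm) hn), map_zero]
  · intro w hw
    rw [Polynomial.X_dvd_iff, m1, Th_coeff_zero hLinS]
    have h3 := congrArg (fun p => Polynomial.coeff p 0) (pt3 w hw)
    simp only [Polynomial.finsetSum_coeff, Polynomial.mul_coeff_zero, lin_coeff_zero,
      Polynomial.coeff_zero] at h3
    rw [h3, map_zero, map_zero]

end Psi2Aux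

open Psi2Aux in
theorem ePsi2 : S_LinB → S_Hom → S_Th2 → S_LinS → S_PtE → S_mapL → S_Psi2 := by
  intro _ hHom hTh2 hLinS hPt hmapL N c I hP hH hS x v0 hl L hg k s0 hs0 J hJ1 hJ2
  obtain ⟨-, -, -, -, -, hc0, hdeg⟩ := hHom N c I x v0 L
  have hdeg := hdeg hg
  have hK : ∀ lam : FL1 I x (ptA k v0 s0) J, _ := fun lam =>
    key hTh2 hLinS hPt hmapL hP hH hS hl L hs0 hJ1 hJ2 lam.1 lam.2.1 lam.2.2
  have hM : ∀ lam : FL1 I x (ptA k v0 s0) J, _ := fun lam =>
    hmapL _ (ptA k v0 s0) J lam.1 lam.2.1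
  have hcop : IsCoprime (lin x v0 L.dt) (Polynomial.X : Polynomial ℂ) := by
    rw [isCoprime_comm, Polynomial.irreducible_X.coprime_iff_not_dvd, Polynomial.X_dvd_iff]
    exact hc0
  have hdt : lin x v0 L.dt ≠ 0 := by
    intro h
    rw [h] at hc0
    exact hc0 (Polynomial.coeff_zero 0)
  -- the values of the map
  have hmem : ∀ lam : FL1 I x (ptA k v0 s0) J,
      (fun j : L.Bc => (mapL lam.1 (Th k x (fun i => (s0 i).coeff 0) (L.cr j.1))).divX) ∈
        annD (lin x v0 L.dt) (L.T v0) ((lin x v0 L.dt).natDegree + k) := by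
    intro lam
    obtain ⟨k1, k2⟩ := hK lam
    refine ⟨fun j => ?_, ?_⟩
    · rw [hdeg]
      exact k1 j
    · intro m hm
      induction hm using Submodule.span_induction with
      | mem w hw =>
        obtain ⟨u, hu, rfl⟩ := hw
        refine hcop.dvd_of_dvd_mul_left ?_
        rw [← k2 u hu]
        exact dvd_mul_right _ _
      | zero => simp
      | add a b _ _ ha hb =>
        simp only [Pi.add_apply, mul_add, Finset.sum_add_distrib]
        exact dvd_add ha hb
      | smul g a _ ha =>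
        have h3 : ∀ p : L.Bc → Polynomial ℂ, ∑ j, p j * (g • a) j = g * ∑ j, p j * a j := by
          intro p
          rw [Finset.mul_sum]
          refine Finset.sum_congr rfl fun j _ => ?_
          rw [Pi.smul_apply, smul_eq_mul]
          ring
        rw [h3]
        exact ha.mul_left g
  refine ⟨{ toFun := fun lam => ⟨_, hmem lam⟩, map_add' := ?_, map_smul' := ?_ }, ?_⟩
  · intro a b
    refine Subtype.ext ?_
    funext j
    refine Polynomial.ext fun n => ?_
    change (mapL (a + b).1 _).divX.coeff n = ((mapL a.1 _).divX + (mapL b.1 _).divX).coeff n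
    rw [Polynomial.coeff_add, Polynomial.coeff_divX, Polynomial.coeff_divX, Polynomial.coeff_divX,
      (hM (a + b)).1, (hM a).1, (hM b).1]
    rfl
  · intro t a
    refine Subtype.ext ?_
    funext j
    refine Polynomial.ext fun n => ?_
    change (mapL (t • a).1 _).divX.coeff n = (t • (mapL a.1 _).divX).coeff n
    rw [Polynomial.coeff_smul, Polynomial.coeff_divX, Polynomial.coeff_divX, (hM (t • a)).1,
      (hM a).1]
    rfl
  · intro lam hlam w hw n
    have h0 : ∀ j : L.Bc,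
        (mapL lam.1 (Th k x (fun i => (s0 i).coeff 0) (L.cr j.1))).divX = 0 := fun j =>
      congrFun (congrArg Subtype.val hlam) j
    have h1 := (hK lam).2 w hw
    rw [Finset.sum_eq_zero (fun j _ => by rw [h0 j, zero_mul]), mul_zero] at h1
    have h2 := (mul_eq_zero.mp h1).resolve_left hdt
    have h3 := (hM lam).1 (Th k x (fun i => (s0 i).coeff 0) w) n
    rw [h2, Polynomial.coeff_zero] at h3
    exact h3.symm

end Pool.Agent.Lib.MP_776403_ag.SD
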