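import Pool.Agent.Lib.MP_776403_ag.SD.SpecE
import Pool.Agent.Lib.MP_776403_ag.SD.Bas

/-!
# THEOREM SD, part E (helper97): the point `(v0, s0)` is a zero of `J1` and `J2`
-/

set_option autoImplicit false

open MvPolynomial

noncomputable section

namespace Pool.Agent.Lib.MP_776403_ag.SD

namespace PtAux

/-- homogeneous components of a multiple of a form -/
theorem hc_mul {σ : Type} {H : MvPolynomial σ ℂ} {d : ℕ} (hH : H.IsHomogeneous d)
    (c : MvPolynomial σ ℂ) (m : ℕ) :
    homogeneousComponent (d + m) (H * c) = H * homogeneousComponent m c := by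
  have h1 : ∀ i, homogeneousComponent (d + m) (H * homogeneousComponent i c) =
      if d + m = d + i then H * homogeneousComponent i c else 0 := by
    intro i
    exact homogeneousComponent_of_mem (hH.mul (homogeneousComponent_isHomogeneous i c))
  have h2 : homogeneousComponent (d + m) (H * c) =
      ∑ i ∈ Finset.range (c.totalDegree + 1),
        if d + m = d + i then H * homogeneousComponent i c else 0 := by
    conv_lhs => rw [← sum_homogeneousComponent c]
    rw [Finset.mul_sum, map_sum]
    exact Finset.sum_congr rfl fun i _ => h1 i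
  rw [h2]
  by_cases hr : m ∈ Finset.range (c.totalDegree + 1)
  · rw [Finset.sum_eq_single_of_mem m hr]
    · rw [if_pos rfl]
    · intro i _ hi
      rw [if_neg (by omega)]
  · rw [Finset.sum_eq_zero]
    · rw [homogeneousComponent_eq_zero, mul_zero]
      rw [Finset.mem_range] at hr
      omega
    · intro i hi
      rw [if_neg]
      intro h
      apply hr
      have : m = i := by omega
      rw [this]
      exact hi

variable {N : ℕ}

/-- The components of a tangent field are tangent fields. -/
theorem TF_comp {I : Ideal (Sx N)} (hI : IsHom I) {w : Fin (N + 1) → Sx N} (hw : w ∈ TF I)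
    (m : ℕ) : (fun i => homogeneousComponent m (w i)) ∈ TF I := by
  have key : ∀ (n : ℕ) (H : Sx N), H ∈ I → H.IsHomogeneous n →
      ∑ i, pderiv i H * homogeneousComponent m (w i) ∈ I := by
    intro n H hH hn
    have h1 := hI _ (hw H hH) (n - 1 + m)
    rw [map_sum] at h1
    have h2 : ∀ i : Fin (N + 1), homogeneousComponent (n - 1 + m) (pderiv i H * w i) =
        pderiv i H * homogeneousComponent m (w i) := fun i => hc_mul hn.pderiv (w i) m
    simp only [h2] at h1
    exact h1
  intro F hF
  have h3 : ∑ i, pderiv i F * homogeneousComponent m (w i) =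
      ∑ n ∈ Finset.range (F.totalDegree + 1), ∑ i, pderiv i (homogeneousComponent n F) *
        homogeneousComponent m (w i) := by
    rw [Finset.sum_comm]
    refine Finset.sum_congr rfl fun i _ => ?_
    rw [← Finset.sum_mul, ← map_sum, sum_homogeneousComponent]
  rw [h3]
  exact Ideal.sum_mem _ fun n _ =>
    key n _ (hI F hF n) (homogeneousComponent_isHomogeneous n F)

theorem sum_range_hc (F : Sx N) {M : ℕ} (hM : F.totalDegree < M) :
    ∑ m ∈ Finset.range M, homogeneousComponent m F = F := by
  conv_rhs => rw [← sum_homogeneousComponent F]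
  refine (Finset.sum_subset ?_ ?_).symm
  · intro m hm
    rw [Finset.mem_range] at hm ⊢
    omega
  · intro m _ hm
    refine homogeneousComponent_eq_zero _ _ ?_
    rw [Finset.mem_range] at hm
    omega

/-- Sections kill all tangent fields. -/
theorem Sec_kill {I : Ideal (Sx N)} (hI : IsHom I) {x v : Vx N} {n : ℕ}
    {s : Fin (N + 1) → Polynomial ℂ} (hs : s ∈ Sec I x v n) {w : Fin (N + 1) → Sx N}
    (hw : w ∈ TF I) : ∑ i, s i * lin x v (w i) = 0 := by
  obtain ⟨M, hM⟩ : ∃ M : ℕ, ∀ i, (w i).totalDegree < M :=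
    ⟨Finset.univ.sup (fun i => (w i).totalDegree) + 1, fun i =>
      Nat.lt_succ_of_le (Finset.le_sup (f := fun i => (w i).totalDegree) (Finset.mem_univ i))⟩
  have h1 : ∑ i, s i * lin x v (w i) =
      ∑ m ∈ Finset.range M, ∑ i, s i * lin x v (homogeneousComponent m (w i)) := by
    rw [Finset.sum_comm]
    refine Finset.sum_congr rfl fun i _ => ?_
    rw [← Finset.mul_sum, ← map_sum, sum_range_hc _ (hM i)]
  rw [h1]
  refine Finset.sum_eq_zero fun m _ => ?_
  exact hs.2 _ (TF_comp hI hw m) m fun i => homogeneousComponent_isHomogeneous m (w i)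

theorem linA_map (k : ℕ) (x v0 : Vx N) (s0 : Fin (N + 1) → Polynomial ℂ) (F : Sx N) :
    (linA k x F).map (eval (ptA k v0 s0)) = lin x v0 F := by
  induction F using MvPolynomial.induction_on with
  | C a =>
    have h1 : linA k x (C a : Sx N) = Polynomial.C (C a) := by
      unfold linA
      rw [aeval_C]
      rfl
    have h2 : lin x v0 (C a : Sx N) = Polynomial.C a := by
      unfold lin
      rw [aeval_C]
      rfl
    rw [h1, h2, Polynomial.map_C, eval_C]
  | add p q hp hq => rw [map_add, map_add, Polynomial.map_add, hp, hq]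
  | mul_X p i hp =>
    have h1 : linA k x (X i : Sx N) = Polynomial.C (C (x i)) +
        Polynomial.C (X (Sum.inl i)) * Polynomial.X := by
      unfold linA
      rw [aeval_X]
    have h2 : lin x v0 (X i : Sx N) = Polynomial.C (x i) + Polynomial.C (v0 i) * Polynomial.X := by
      unfold lin
      rw [aeval_X]
    rw [map_mul, map_mul, Polynomial.map_mul, hp, h1, h2, Polynomial.map_add,
      Polynomial.map_mul, Polynomial.map_C, Polynomial.map_C, Polynomial.map_X, eval_C, eval_X]
    rfl

theorem sA_map (k : ℕ) (v0 : Vx N) (s0 : Fin (N + 1) → Polynomial ℂ) (i : Fin (N + 1))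
    (hs : s0 i ∈ Polynomial.degreeLT ℂ (k + 1)) :
    (sA k (fun i => (s0 i).coeff 0) i).map (eval (ptA k v0 s0)) = s0 i := by
  have hn : (s0 i).natDegree < k + 1 := by
    by_cases h0 : s0 i = 0
    · rw [h0, Polynomial.natDegree_zero]
      omega
    · rw [Polynomial.mem_degreeLT, Polynomial.degree_eq_natDegree h0] at hs
      exact_mod_cast hs
  have h1 := Polynomial.as_sum_range_C_mul_X_pow' (s0 i) hn
  rw [Finset.sum_range, Fin.sum_univ_succ] at h1
  conv_rhs => rw [h1]
  unfold sA
  rw [Polynomial.map_add, Polynomial.map_C, eval_C, Polynomial.map_sum]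
  simp only [Fin.val_zero, pow_zero, mul_one, Fin.val_succ]
  congr 1
  refine Finset.sum_congr rfl fun j _ => ?_
  rw [Polynomial.map_mul, Polynomial.map_C, Polynomial.map_pow, Polynomial.map_X, eval_X]
  rfl

end PtAux

open PtAux in
theorem ePt : S_LinB → S_LinS → S_PtE := by
  intro _ _ N I hI x v0 k hL s0 hs0
  have h1 := linA_map k x v0 s0
  have h2 : ∀ i, (sA k (fun i => (s0 i).coeff 0) i).map (eval (ptA k v0 s0)) = s0 i :=
    fun i => sA_map k v0 s0 i (hs0.1 i)
  have h3 : ∀ w ∈ TF I, ∑ i, s0 i * lin x v0 (w i) = 0 := fun w hw => Sec_kill hI hs0 hw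
  refine ⟨h1, h2, h3, ?_, ?_⟩
  · refine Ideal.span_le.2 ?_
    rintro _ ⟨F, hF, n, rfl⟩
    change (linA k x F).coeff n ∈ ptI (ptA k v0 s0)
    unfold ptI
    rw [RingHom.mem_ker, ← Polynomial.coeff_map, h1, lin_eq_zero hL hF, Polynomial.coeff_zero]
  · refine Ideal.span_le.2 ?_
    rintro _ ⟨w, hw, n, rfl⟩
    change (∑ i, sA k (fun i => (s0 i).coeff 0) i * linA k x (w i)).coeff n ∈ ptI (ptA k v0 s0)
    unfold ptI
    rw [RingHom.mem_ker, ← Polynomial.coeff_map, Polynomial.map_sum]
    have h4 : ∑ i, (sA k (fun i => (s0 i).coeff 0) i * linA k x (w i)).map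
        (eval (ptA k v0 s0)) = 0 := by
      rw [← h3 w hw]
      refine Finset.sum_congr rfl fun i _ => ?_
      rw [Polynomial.map_mul, h1, h2]
    rw [h4, Polynomial.coeff_zero]

end Pool.Agent.Lib.MP_776403_ag.SD
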