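import Pool.Agent.Lib.MP_776403_ag.SD.SpecE
import Pool.Agent.Lib.MP_776403_ag.SD.Bas

/-!
# THEOREM SD, part E, (E6): saturation of the tangent module on a line
-/

set_option autoImplicit false

open MvPolynomial

noncomputable section

namespace Pool.Agent.Lib.MP_776403_ag.SD

variable {N : ℕ}

namespace SatAux

/-- An ideal of `ℂ[t]` whose elements have no common zero is everything. -/
private theorem eq_top (A : Ideal (Polynomial ℂ))
    (h : ∀ t0 : ℂ, ∃ p ∈ A, p.eval t0 ≠ 0) : A = ⊤ := by
  obtain ⟨g, hg⟩ := (IsPrincipalIdealRing.principal A).principal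
  have hA : A = Ideal.span {g} := hg
  by_cases hd : g.degree = 0
  · rw [hA, Ideal.span_singleton_eq_top]
    exact Polynomial.isUnit_iff_degree_eq_zero.2 hd
  · obtain ⟨t0, ht⟩ := IsAlgClosed.exists_root g hd
    obtain ⟨p, hp, hp0⟩ := h t0
    rw [hA, Ideal.mem_span_singleton] at hp
    obtain ⟨q, rfl⟩ := hp
    exfalso
    apply hp0
    rw [Polynomial.eval_mul, ht.eq_zero, zero_mul]

/-- Splitting a sum over all coordinates. -/
private theorem sum_split {I : Ideal (Sx N)} {x : Vx N} {c : ℕ} (L : Loc I x c)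
    {R : Type} [CommRing R] (f : Fin (N + 1) → R) :
    ∑ l, f l = ∑ b, f (L.B b) + ∑ j : L.Bc, f j.1 := by
  classical
  have h1 : ∑ l, f l = ∑ l ∈ Finset.univ.image L.B, f l +
      ∑ l ∈ (Finset.univ.image L.B)ᶜ, f l := (Finset.sum_add_sum_compl _ _).symm
  rw [h1, Finset.sum_image (fun a _ b _ h => L.injB h)]
  congr 1
  refine Finset.sum_subtype _ (fun l => ?_) f
  simp

/-- Cramer's rule, abstract. -/
private theorem alg {R β γ : Type} [CommRing R] [Fintype β] [Fintype γ] (D : R) (Cf : β → γ → R)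
    (mB : β → R) (mj : γ → R) (q : β → R) (w0 : γ → R)
    (hq : ∀ b, ∑ j, Cf b j * w0 j = D * q b) (hG : ∀ j, D * mj j = ∑ b, Cf b j * mB b) :
    D * (∑ b, mB b * (- q b) + ∑ j, mj j * w0 j) = 0 := by
  have h2 : ∀ b, D * (mB b * (- q b)) = - ∑ j, Cf b j * mB b * w0 j := by
    intro b
    calc D * (mB b * (- q b)) = - (mB b * (D * q b)) := by ring
      _ = _ := by
        rw [← hq b, Finset.mul_sum]
        congr 1
        exact Finset.sum_congr rfl fun j _ => by ring
  have h3 : ∀ j, D * (mj j * w0 j) = ∑ b, Cf b j * mB b * w0 j := by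
    intro j
    rw [← mul_assoc, hG j, Finset.sum_mul]
  rw [mul_add, Finset.mul_sum, Finset.mul_sum, Finset.sum_congr rfl fun b _ => h2 b,
    Finset.sum_congr rfl fun j _ => h3 j, Finset.sum_neg_distrib, Finset.sum_comm, neg_add_cancel]

private theorem alg2 {R γ : Type} [CommRing R] [Fintype γ] (Cf : γ → R) (w : γ → R) (E : γ → R)
    (hE : ∀ j, E j = - Cf j) : - ∑ j, Cf j * w j = ∑ j, w j * E j := by
  rw [← Finset.sum_neg_distrib]
  exact Finset.sum_congr rfl fun j _ => by rw [hE j]; ring

end SatAux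

open SatAux

/-- (E6) saturation. -/
theorem eSat : S_LinB → S_Loc → S_Cr → S_CrL → S_Sat := by
  intro _ hLoc hCr hCrL N c I hI hIh hSm x v0 hline L w0 hw0
  classical
  have hw1 : ∀ b : Fin c, lin x v0 L.dt ∣ ∑ j : L.Bc, lin x v0 (L.coef b j.1) * w0 j := hw0
  choose q hq using hw1
  obtain ⟨hD0, -, hG, hW⟩ := hCrL N c I x v0 x 0 L (by rw [zero_smul, add_zero]) hline.2
  -- the extended vector
  obtain ⟨w, hwB, hwBc⟩ : ∃ w : Fin (N + 1) → Polynomial ℂ, (∀ b, w (L.B b) = - q b) ∧
      ∀ j : L.Bc, w j.1 = w0 j := by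
    refine ⟨fun l => if h : ∃ b, L.B b = l then - q h.choose else w0 ⟨l, h⟩, fun b => ?_,
      fun j => ?_⟩
    · have h : ∃ b', L.B b' = L.B b := ⟨b, rfl⟩
      simp only [dif_pos h]
      rw [L.injB h.choose_spec]
    · have h : ¬ ∃ b', L.B b' = j.1 := fun ⟨b', hb'⟩ => j.2 ⟨b', hb'⟩
      simp only [dif_neg h]
  -- orthogonality
  have horth : ∀ i, ∑ l, lin x v0 (pderiv l (L.F i)) * w l = 0 := by
    intro i
    have h1 : lin x v0 L.dt * ∑ l, lin x v0 (pderiv l (L.F i)) * w l = 0 := by
      rw [sum_split L]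
      simp only [hwB, hwBc]
      exact alg (lin x v0 L.dt) (fun b (j : L.Bc) => lin x v0 (L.coef b j.1))
        (fun b => lin x v0 (pderiv (L.B b) (L.F i))) (fun j : L.Bc => lin x v0 (pderiv j.1 (L.F i)))
        q w0 hq (fun j => hG (L.F i) (L.memF i) j.1)
    exact (mul_eq_zero.1 h1).resolve_left hD0
  have hall : ∀ G ∈ I, ∑ l, lin x v0 (pderiv l G) * w l = 0 := (hW w horth).1
  -- the ideal of multipliers
  have key : (L.T v0).comap (LinearMap.toSpanSingleton (Polynomial ℂ) _ w0) = ⊤ := by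
    refine eq_top _ fun t0 => ?_
    have hy : x + t0 • v0 ∈ zer I := mem_zer_line hline t0
    have hy0 : x + t0 • v0 ≠ 0 := line_ne_zero' hline t0
    obtain ⟨L'⟩ := hLoc N c I hSm _ hy hy0
    refine ⟨lin x v0 L'.dt, ?_, ?_⟩
    · obtain ⟨-, -, -, hW'⟩ := hCrL N c I x v0 _ t0 L' rfl hline.2
      have hB' := (hW' w fun i => hall _ (L'.memF i)).2
      have hcr := (hCr N c I hI hIh hSm _ L').1
      rw [Submodule.mem_comap, LinearMap.toSpanSingleton_apply]
      have h1 : ∀ l, lin x v0 L'.dt * w l = ∑ j : L'.Bc, w j.1 * lin x v0 (L'.cr j.1 l) := by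
        intro l
        by_cases hl : ∃ b, L'.B b = l
        · obtain ⟨b, rfl⟩ := hl
          rw [hB' b]
          refine alg2 (fun j : L'.Bc => lin x v0 (L'.coef b j.1)) (fun j : L'.Bc => w j.1) _
            fun j => ?_
          have h2 : L'.cr j.1 (L'.B b) = - L'.coef b j.1 := by
            unfold Loc.cr
            rw [if_neg (fun h => j.2 ⟨b, h⟩), zero_sub, Finset.sum_eq_single b]
            · rw [if_pos rfl]
            · intro b' _ hb'
              rw [if_neg fun h => hb' (L'.injB h)]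
            · intro h
              exact absurd (Finset.mem_univ b) h
          rw [h2, map_neg]
        · have h2 : ∀ j : L'.Bc, L'.cr j.1 l = if l = j.1 then L'.dt else 0 := by
            intro j
            unfold Loc.cr
            rw [Finset.sum_eq_zero, sub_zero]
            intro b _
            rw [if_neg fun h => hl ⟨b, h⟩]
          have hl' : l ∉ Set.range L'.B := fun ⟨b, hb⟩ => hl ⟨b, hb⟩
          rw [Finset.sum_eq_single (⟨l, hl'⟩ : L'.Bc)]
          · rw [h2, if_pos rfl, mul_comm]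
          · intro j _ hj
            rw [h2, if_neg, map_zero, mul_zero]
            intro h
            exact hj (Subtype.ext h.symm)
          · intro h
            exact absurd (Finset.mem_univ _) h
      have h2 : lin x v0 L'.dt • w0 =
          ∑ j : L'.Bc, w j.1 • (fun l : L.Bc => lin x v0 (L'.cr j.1 l.1)) := by
        funext l
        rw [Pi.smul_apply, smul_eq_mul, Finset.sum_apply, ← hwBc l, h1 l.1]
        rfl
      rw [h2]
      refine Submodule.sum_mem _ fun j _ => Submodule.smul_mem _ _ ?_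
      exact Submodule.subset_span ⟨L'.cr j.1, hcr j.1, rfl⟩
    · rw [lin_eval]
      exact L'.detx
  have h1 : (1 : Polynomial ℂ) ∈ (L.T v0).comap (LinearMap.toSpanSingleton (Polynomial ℂ) _ w0) := by
    rw [key]; trivial
  rw [Submodule.mem_comap, LinearMap.toSpanSingleton_apply, one_smul] at h1
  exact h1

end Pool.Agent.Lib.MP_776403_ag.SD
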