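import Pool.Agent.Lib.MP_776403_ag.SD.SpecE

/-!
# THEOREM SD, part E, module Th1: the representation (E1) of the functionals (helper73)
-/

set_option autoImplicit false

open MvPolynomial

noncomputable section

namespace Pool.Agent.Lib.MP_776403_ag.SD

variable {N : ℕ}

namespace Th1Aux

private theorem zero {I : Ideal (Sx N)} {θ : Sx N → Polynomial ℂ}
    (hadd : ∀ F ∈ I, ∀ G ∈ I, θ (F + G) = θ F + θ G) : θ 0 = 0 := by
  have h := hadd 0 I.zero_mem 0 I.zero_mem
  rw [add_zero] at h
  exact left_eq_add.1 h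

private theorem sum {I : Ideal (Sx N)} {x v0 : Vx N} {θ : Sx N → Polynomial ℂ}
    (hadd : ∀ F ∈ I, ∀ G ∈ I, θ (F + G) = θ F + θ G)
    (hmul : ∀ G : Sx N, ∀ F ∈ I, θ (G * F) = lin x v0 G * θ F) {ι : Type} (s : Finset ι)
    (a F : ι → Sx N) (hF : ∀ i, F i ∈ I) : θ (∑ i ∈ s, a i * F i) = ∑ i ∈ s, lin x v0 (a i) * θ (F i) := by
  classical
  induction s using Finset.induction_on with
  | empty => rw [Finset.sum_empty, Finset.sum_empty, zero hadd]
  | insert j s hj ih =>
    rw [Finset.sum_insert hj, Finset.sum_insert hj, hadd _ (I.mul_mem_left _ (hF j)) _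
      (I.sum_mem fun i _ => I.mul_mem_left _ (hF i)), ih, hmul _ _ (hF j)]

/-- A form of degree zero in a prime ideal is zero. -/
private theorem deg0 {I : Ideal (Sx N)} (hI : I.IsPrime) {F : Sx N} (hF : F ∈ I)
    (h : F.IsHomogeneous 0) : F = 0 := by
  have h1 : F = C (coeff 0 F) := by
    rw [← totalDegree_eq_zero_iff_eq_C]
    exact Nat.le_zero.1 h.totalDegree_le
  by_contra h0
  have h2 : coeff 0 F ≠ 0 := by
    intro h3
    rw [h3, map_zero] at h1
    exact h0 h1
  refine hI.ne_top ((Ideal.eq_top_iff_one I).2 ?_)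
  have h3 : C (coeff 0 F)⁻¹ * F ∈ I := I.mul_mem_left _ hF
  have h4 : C (coeff 0 F)⁻¹ * F = 1 := by
    conv_lhs => rw [h1]
    rw [coeff_C, if_pos rfl, ← map_mul, inv_mul_cancel₀ h2, map_one]
  rwa [h4] at h3

end Th1Aux

theorem eTh1 : S_Hom → S_LinB → S_Th1 := by
  intro hH hLin N c I x v0 L hI hline θ hadd hmul hdeg hX
  obtain ⟨-, -, -, hadj, hfd, -, -⟩ := hH N c I x v0 L
  have h0 := Th1Aux.zero hadd
  constructor
  · intro b
    have k1 : (∑ i, lin x v0 (L.M.adjugate b i) * θ (L.F i)).natDegree ≤ L.dg + 1 := by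
      refine Polynomial.natDegree_sum_le_of_forall_le _ _ fun i _ => ?_
      by_cases hf : L.f i = 0
      · have k2 : L.F i = 0 := Th1Aux.deg0 hI (L.memF i) (hf ▸ L.homF i)
        rw [k2, h0, mul_zero, Polynomial.natDegree_zero]
        exact Nat.zero_le _
      · refine Polynomial.natDegree_mul_le.trans ?_
        have k2 := hadj b i
        have k3 := hdeg _ (L.memF i) _ (L.homF i)
        have k4 := hfd i
        omega
    have k2 : (∑ i, lin x v0 (L.M.adjugate b i) * θ (L.F i)).divX.natDegree < L.dg + 1 := by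
      rw [Polynomial.natDegree_divX_eq_natDegree_tsub_one]
      omega
    rw [Polynomial.mem_degreeLT]
    exact lt_of_le_of_lt Polynomial.degree_le_natDegree (by exact_mod_cast k2)
  · intro F hF
    have hl : ∀ G ∈ I, lin x v0 G = 0 := fun G hG => (hLin N x v0 G).2.2 I hline hG
    have hh : lin x v0 L.h ≠ 0 := by
      intro h1
      have h2 := (hLin N x v0 L.h).1 0
      rw [h1, Polynomial.eval_zero, zero_smul, add_zero] at h2
      exact L.hx h2.symm
    obtain ⟨a, ha⟩ := Ideal.mem_span_range_iff_exists_fun.1 (L.mul F hF)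
    have e1 : lin x v0 L.h * θ F = ∑ i, lin x v0 (a i) * θ (L.F i) := by
      rw [← hmul _ _ hF, ← ha]
      exact Th1Aux.sum hadd hmul _ _ _ L.memF
    have e2 : ∀ b, lin x v0 L.h * lin x v0 (pderiv b F) = ∑ i, lin x v0 (a i) * lin x v0 (pderiv b (L.F i)) := by
      intro b
      have k1 := congrArg (fun G => lin x v0 (pderiv b G)) ha
      simp only [map_sum, pderiv_mul, map_add, map_mul, hl F hF, hl _ (L.memF _), mul_zero, zero_add] at k1
      exact k1.symm
    have e3 : ∀ b, Polynomial.X * (∑ i, lin x v0 (L.M.adjugate b i) * θ (L.F i)).divX =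
        ∑ i, lin x v0 (L.M.adjugate b i) * θ (L.F i) := by
      intro b
      have k1 : (∑ i, lin x v0 (L.M.adjugate b i) * θ (L.F i)).coeff 0 = 0 := by
        rw [← Polynomial.X_dvd_iff]
        exact Finset.dvd_sum fun i _ => Dvd.dvd.mul_left (hX _ (L.memF i)) _
      have k2 := Polynomial.divX_mul_X_add (∑ i, lin x v0 (L.M.adjugate b i) * θ (L.F i))
      rw [k1, map_zero, add_zero, mul_comm] at k2
      exact k2
    have e4 : ∀ i j, ∑ b, lin x v0 (pderiv (L.B b) (L.F i)) * lin x v0 (L.M.adjugate b j) =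
        if i = j then lin x v0 L.dt else 0 := by
      intro i j
      have k1 := congrFun (congrFun (Matrix.mul_adjugate L.M) i) j
      have k2 := congrArg (lin x v0) k1
      rw [Matrix.mul_apply, map_sum] at k2
      simp only [map_mul] at k2
      rw [Matrix.smul_apply, Matrix.one_apply, smul_eq_mul] at k2
      refine k2.trans ?_
      split_ifs
      · rw [mul_one]
        rfl
      · rw [mul_zero, map_zero]
    refine mul_left_cancel₀ hh ?_
    have e5 : lin x v0 L.h * (Polynomial.X * ∑ b, (∑ i, lin x v0 (L.M.adjugate b i) * θ (L.F i)).divX *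
        lin x v0 (pderiv (L.B b) F)) =
        ∑ b, (∑ j, lin x v0 (L.M.adjugate b j) * θ (L.F j)) *
          ∑ i, lin x v0 (a i) * lin x v0 (pderiv (L.B b) (L.F i)) := by
      rw [Finset.mul_sum, Finset.mul_sum]
      refine Finset.sum_congr rfl fun b _ => ?_
      rw [← e2]
      refine Eq.trans ?_ (congrArg (· * (lin x v0 L.h * lin x v0 (pderiv (L.B b) F))) (e3 b))
      ring
    rw [e5, mul_left_comm, e1]
    simp only [Finset.sum_mul_sum]
    rw [Finset.sum_comm]
    have e6 : ∀ j, ∑ b, ∑ i, lin x v0 (L.M.adjugate b j) * θ (L.F j) *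
        (lin x v0 (a i) * lin x v0 (pderiv (L.B b) (L.F i))) =
        lin x v0 L.dt * (lin x v0 (a j) * θ (L.F j)) := by
      intro j
      rw [Finset.sum_comm]
      have k1 : ∀ i, ∑ b, lin x v0 (L.M.adjugate b j) * θ (L.F j) *
          (lin x v0 (a i) * lin x v0 (pderiv (L.B b) (L.F i))) =
          (θ (L.F j) * lin x v0 (a i)) * if i = j then lin x v0 L.dt else 0 := by
        intro i
        rw [← e4, Finset.mul_sum]
        exact Finset.sum_congr rfl fun b _ => by ring
      simp only [k1, mul_ite, mul_zero, Finset.sum_ite_eq', Finset.mem_univ, if_true]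
      ring
    rw [Finset.mul_sum]
    exact Finset.sum_congr rfl fun j _ => (e6 j).symm

end Pool.Agent.Lib.MP_776403_ag.SD
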