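import Pool.Agent.Lib.MP_776403_ag.SD.SpecE

/-!
# THEOREM SD, part E: the representation (E2) of the functionals
-/

set_option autoImplicit false

open MvPolynomial

noncomputable section

namespace Pool.Agent.Lib.MP_776403_ag.SD

namespace Th2Aux

variable {N : ℕ} {I : Ideal (Sx N)}

theorem TF_add {w w' : Fin (N + 1) → Sx N} (h : w ∈ TF I) (h' : w' ∈ TF I) : w + w' ∈ TF I := by
  intro F hF
  have h1 : ∑ i, pderiv i F * (w + w') i = ∑ i, pderiv i F * w i + ∑ i, pderiv i F * w' i := by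
    rw [← Finset.sum_add_distrib]
    exact Finset.sum_congr rfl fun i _ => mul_add _ _ _
  rw [h1]
  exact I.add_mem (h F hF) (h' F hF)

theorem TF_mul (G : Sx N) {w : Fin (N + 1) → Sx N} (h : w ∈ TF I) : (fun i => G * w i) ∈ TF I := by
  intro F hF
  have h1 : ∑ i, pderiv i F * (G * w i) = G * ∑ i, pderiv i F * w i := by
    rw [Finset.mul_sum]
    exact Finset.sum_congr rfl fun i _ => mul_left_comm _ _ _
  rw [h1]
  exact I.mul_mem_left _ (h F hF)

theorem TF_I {F : Sx N} (hF : F ∈ I) (u : Fin (N + 1) → Sx N) : (fun i => F * u i) ∈ TF I := by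
  intro G _
  exact I.sum_mem fun i _ => I.mul_mem_left _ (I.mul_mem_right _ hF)

theorem TF_zero : (0 : Fin (N + 1) → Sx N) ∈ TF I := by
  intro F _
  exact I.sum_mem fun i _ => by
    rw [Pi.zero_apply, mul_zero]
    exact I.zero_mem

theorem TF_sum {ι : Type} (s : Finset ι) (u : ι → Fin (N + 1) → Sx N) (h : ∀ j, u j ∈ TF I) :
    ∑ j ∈ s, u j ∈ TF I := by
  classical
  induction s using Finset.induction_on with
  | empty => rw [Finset.sum_empty]; exact TF_zero
  | insert a s ha ih => rw [Finset.sum_insert ha]; exact TF_add (h a) ih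

theorem th_sum {θ : (Fin (N + 1) → Sx N) → Polynomial ℂ}
    (hadd : ∀ w ∈ TF I, ∀ w' ∈ TF I, θ (w + w') = θ w + θ w') (h0 : θ 0 = 0) {ι : Type}
    (s : Finset ι) (u : ι → Fin (N + 1) → Sx N) (h : ∀ j, u j ∈ TF I) :
    θ (∑ j ∈ s, u j) = ∑ j ∈ s, θ (u j) := by
  classical
  induction s using Finset.induction_on with
  | empty => rw [Finset.sum_empty, Finset.sum_empty, h0]
  | insert a s ha ih =>
    rw [Finset.sum_insert ha, Finset.sum_insert ha, hadd _ (h a) _ (TF_sum s u h), ih]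

theorem divX_mem {p : Polynomial ℂ} {n : ℕ} (h : p.natDegree ≤ n) :
    p.divX ∈ Polynomial.degreeLT ℂ n := by
  rw [Polynomial.mem_degreeLT, Polynomial.degree_lt_iff_coeff_zero]
  intro m hm
  rw [Polynomial.coeff_divX]
  exact Polynomial.coeff_eq_zero_of_natDegree_lt (by omega)

theorem divX_eq {p : Polynomial ℂ} (h : Polynomial.X ∣ p) : Polynomial.X * p.divX = p := by
  have h1 := Polynomial.divX_mul_X_add p
  rw [Polynomial.X_dvd_iff.1 h, map_zero, add_zero, mul_comm] at h1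
  exact h1

end Th2Aux

open Th2Aux

theorem eTh2 : S_Hom → S_LinB → S_Cr → S_Th2 := by
  intro hHom _ hCr N c I hI hIh hS x v0 L hz k θ hadd hmul hIθ hdeg hX
  obtain ⟨hcr, hcr2⟩ := hCr N c I hI hIh hS x L
  obtain ⟨-, -, hhom, -⟩ := hHom N c I x v0 L
  refine ⟨fun j => divX_mem (hdeg _ (hcr j.1) L.dg (fun l => hhom j.1 l)), ?_⟩
  intro w hw
  have h0 : θ 0 = 0 := by
    have h1 := hIθ 0 I.zero_mem 0
    have h2 : (fun i => (0 : Sx N) * (0 : Fin (N + 1) → Sx N) i) = 0 := by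
      funext i
      simp
    rwa [h2] at h1
  -- the sum of the Cramer fields
  have hR : ∀ j : L.Bc, (fun l => w j.1 * L.cr j.1 l) ∈ TF I := fun j => TF_mul _ (hcr j.1)
  -- the error term
  let E : Fin (N + 1) → Sx N := fun l => L.dt * w l - ∑ j : L.Bc, w j.1 * L.cr j.1 l
  have hE : ∀ l, E l ∈ I := hcr2 w hw
  have hEe : E = ∑ l' : Fin (N + 1), (fun i => E l' * (if i = l' then (1 : Sx N) else 0)) := by
    funext i
    rw [Finset.sum_apply]
    simp
  have hE1 : ∀ l' : Fin (N + 1), (fun i => E l' * (if i = l' then (1 : Sx N) else 0)) ∈ TF I :=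
    fun l' => TF_I (hE l') _
  have hE0 : θ E = 0 := by
    rw [hEe, th_sum hadd h0 _ _ hE1]
    exact Finset.sum_eq_zero fun l' _ => hIθ (E l') (hE l') _
  have hET : E ∈ TF I := by
    rw [hEe]
    exact TF_sum _ _ hE1
  have hW : (fun i => L.dt * w i) = (∑ j : L.Bc, fun l => w j.1 * L.cr j.1 l) + E := by
    funext i
    rw [Pi.add_apply, Finset.sum_apply]
    show _ = _ + (L.dt * w i - ∑ j : L.Bc, w j.1 * L.cr j.1 i)
    ring
  have h1 := hmul L.dt w hw
  rw [← h1, hW, hadd _ (TF_sum _ _ hR) _ hET, hE0, add_zero, th_sum hadd h0 _ _ hR, Finset.mul_sum]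
  refine Finset.sum_congr rfl fun j _ => ?_
  rw [hmul _ _ (hcr j.1)]
  have h2 := divX_eq (hX _ (hcr j.1))
  rw [← mul_assoc, h2, mul_comm]

end Pool.Agent.Lib.MP_776403_ag.SD
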