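import Pool.Agent.Lib.MP_776403_ag.SD.SpecE

/-!
# THEOREM SD, part E, module WH: weighted homogeneity of the ideals J1, J2 (helper24)
-/

set_option autoImplicit false

open MvPolynomial

noncomputable section

namespace Pool.Agent.Lib.MP_776403_ag.SD

namespace WHAux

variable {σ : Type} {w : σ → ℕ}

/-- A component of a multiple of a weighted homogeneous element of an ideal is in the ideal. -/
theorem comp_mul_mem {J : Ideal (MvPolynomial σ ℂ)} {f : MvPolynomial σ ℂ} {n : ℕ} (hf : f ∈ J)
    (hn : IsWeightedHomogeneous w f n) (a : MvPolynomial σ ℂ) (m : ℕ) :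
    weightedHomogeneousComponent w m (a * f) ∈ J := by
  classical
  induction a using MvPolynomial.induction_on' with
  | monomial d c =>
    have h1 : IsWeightedHomogeneous w (monomial d c * f) (Finsupp.weight w d + n) :=
      (isWeightedHomogeneous_monomial w d c rfl).mul hn
    rw [weightedHomogeneousComponent_of_mem
      ((mem_weightedHomogeneousSubmodule ℂ w _ _).2 h1)]
    split_ifs
    · exact J.mul_mem_left _ hf
    · exact J.zero_mem
  | add p q hp hq =>
    rw [add_mul, map_add]
    exact J.add_mem hp hq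

theorem isWH_span (s : Set (MvPolynomial σ ℂ)) (hs : ∀ f ∈ s, ∃ n : ℕ, IsWeightedHomogeneous w f n) :
    IsWH w (Ideal.span s) := by
  intro F hF m
  have key : ∀ (a : MvPolynomial σ ℂ) (m : ℕ),
      weightedHomogeneousComponent w m (a * F) ∈ Ideal.span s := by
    refine Submodule.span_induction (p := fun F _ => ∀ (a : MvPolynomial σ ℂ) (m : ℕ),
      weightedHomogeneousComponent w m (a * F) ∈ Ideal.span s) ?_ ?_ ?_ ?_ hF
    · intro f hf a m
      obtain ⟨n, hn⟩ := hs f hf
      exact comp_mul_mem (Ideal.subset_span hf) hn a m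
    · intro a m
      rw [mul_zero, map_zero]
      exact Ideal.zero_mem _
    · intro f g _ _ hf hg a m
      rw [mul_add, map_add]
      exact Ideal.add_mem _ (hf a m) (hg a m)
    · intro b f _ hf a m
      rw [smul_eq_mul, ← mul_assoc]
      exact hf (a * b) m
  have h := key 1 m
  rwa [one_mul] at h

/-- The coefficient of `t ^ n` has weight `n`. -/
def WHP (w : σ → ℕ) (f : Polynomial (MvPolynomial σ ℂ)) : Prop :=
  ∀ n : ℕ, IsWeightedHomogeneous w (f.coeff n) n

theorem WHP.add {f g : Polynomial (MvPolynomial σ ℂ)} (hf : WHP w f) (hg : WHP w g) :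
    WHP w (f + g) := by
  intro n
  rw [Polynomial.coeff_add]
  exact (hf n).add (hg n)

theorem WHP.sum {ι : Type} (s : Finset ι) (f : ι → Polynomial (MvPolynomial σ ℂ))
    (hf : ∀ i, WHP w (f i)) : WHP w (∑ i ∈ s, f i) := by
  intro n
  rw [Polynomial.finsetSum_coeff]
  exact IsWeightedHomogeneous.sum s _ n (fun i _ => hf i n)

theorem WHP.mul {f g : Polynomial (MvPolynomial σ ℂ)} (hf : WHP w f) (hg : WHP w g) :
    WHP w (f * g) := by
  intro n
  rw [Polynomial.coeff_mul]
  refine IsWeightedHomogeneous.sum _ _ n (fun p hp => ?_)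
  have h1 := (hf p.1).mul (hg p.2)
  rwa [Finset.HasAntidiagonal.mem_antidiagonal.1 hp] at h1

theorem WHP.C (a : ℂ) : WHP w (Polynomial.C (MvPolynomial.C a)) := by
  intro n
  rw [Polynomial.coeff_C]
  split_ifs with h
  · rw [h]
    exact isWeightedHomogeneous_C w a
  · exact isWeightedHomogeneous_zero ℂ w n

theorem WHP.X (i : σ) (j : ℕ) (hi : w i = j) :
    WHP w (Polynomial.C (MvPolynomial.X i) * Polynomial.X ^ j) := by
  intro n
  rw [Polynomial.coeff_C_mul, Polynomial.coeff_X_pow]
  split_ifs with h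
  · rw [mul_one, h, ← hi]
    exact isWeightedHomogeneous_X ℂ w i
  · rw [mul_zero]
    exact isWeightedHomogeneous_zero ℂ w n

end WHAux

open WHAux

theorem eWH : S_LinS → S_WH := by
  intro _ N I x ξ k
  have hX : ∀ i : Fin (N + 1), WHP (wt N k)
      (Polynomial.C (C (x i)) + Polynomial.C (X (Sum.inl i)) * Polynomial.X) := by
    intro i
    have h1 := WHP.X (w := wt N k) (Sum.inl i) 1 rfl
    rw [pow_one] at h1
    exact (WHP.C (x i)).add h1
  have hlin : ∀ F : Sx N, WHP (wt N k) (linA k x F) := by
    intro F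
    induction F using MvPolynomial.induction_on with
    | C a =>
      have h1 : linA k x (C a) = Polynomial.C (C a) := by
        rw [← MvPolynomial.algebraMap_eq, AlgHom.commutes]
        rfl
      rw [h1]
      exact WHP.C a
    | add p q hp hq =>
      rw [map_add]
      exact hp.add hq
    | mul_X p i hp =>
      rw [map_mul]
      refine hp.mul ?_
      have h1 : linA k x (X i) =
          Polynomial.C (C (x i)) + Polynomial.C (X (Sum.inl i)) * Polynomial.X := by
        unfold linA
        rw [aeval_X]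
      rw [h1]
      exact hX i
  have hsA : ∀ i, WHP (wt N k) (sA k ξ i) := by
    intro i
    refine (WHP.C (ξ i)).add (WHP.sum _ _ (fun j => ?_))
    exact WHP.X (w := wt N k) (Sum.inr (i, j)) (j.1 + 1) rfl
  refine ⟨?_, ?_, ?_, ?_⟩
  · apply isWH_span
    rintro f ⟨F, _, n, rfl⟩
    exact ⟨n, hlin F n⟩
  · apply isWH_span
    rintro f ⟨u, _, n, rfl⟩
    exact ⟨n, WHP.sum _ _ (fun i => (hsA i).mul (hlin (u i))) n⟩
  · intro J J' hJ hJ' F hF m
    obtain ⟨f, hf, g, hg, rfl⟩ := Submodule.mem_sup.1 hF
    rw [map_add]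
    exact Submodule.add_mem _ (Submodule.mem_sup_left (hJ f hf m))
      (Submodule.mem_sup_right (hJ' g hg m))
  · intro s hs
    exact isWH_span s hs

end Pool.Agent.Lib.MP_776403_ag.SD
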